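import Pool.Agent.T9h40.Leg

/-!
Points of infinite order with `x = 1 / 512` and `x = 512`, by a `2`-adic argument.
-/

set_option autoImplicit false

open WeierstrassCurve

namespace Pool.Agent.T9h40.K3

open Pool.Agent.H437R2.Man.MW

lemma exists_val (F : Type) [Field F] [CharZero F] [Algebra.IsAlgebraic ℚ F] :
    ∃ v : AbsoluteValue F ℝ, IsNonarchimedean v ∧ v 2 = 1 / 2 := by
  have : Fact (Nat.Prime 2) := ⟨Nat.prime_two⟩
  let j : F →ₐ[ℚ] PadicAlgCl 2 := IsAlgClosed.lift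
  let w : AbsoluteValue (PadicAlgCl 2) ℝ := NormedField.toAbsoluteValue (PadicAlgCl 2)
  refine ⟨w.comp (f := (j : F →+* PadicAlgCl 2)) j.injective, ?_, ?_⟩
  · intro a b
    change ‖j (a + b)‖ ≤ max ‖j a‖ ‖j b‖
    rw [map_add]
    exact PadicAlgCl.isNonarchimedean 2 (j a) (j b)
  · change ‖j 2‖ = 1 / 2
    have h1 : j 2 = algebraMap ℚ_[2] (PadicAlgCl 2) 2 := by
      rw [map_ofNat, map_ofNat]
    rw [h1]
    have h2 : ‖(algebraMap ℚ_[2] (PadicAlgCl 2) 2)‖ = ‖(2 : ℚ_[2])‖ := by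
      exact PadicAlgCl.norm_extends 2 2
    rw [h2]
    have := Padic.norm_p (p := 2)
    rw [show ((2 : ℕ) : ℚ_[2]) = 2 by norm_num] at this
    rw [this]
    norm_num

section

variable {F : Type} [Field F] {v : AbsoluteValue F ℝ}

lemma v_sub (hv : IsNonarchimedean v) {a b : F} (h : v b < v a) : v (a - b) = v a := by
  apply le_antisymm
  · have h1 := hv a (-b)
    rw [← sub_eq_add_neg, v.map_neg, max_eq_left h.le] at h1
    exact h1
  · have h1 := hv (a - b) b
    rw [sub_add_cancel] at h1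
    rcases le_max_iff.mp h1 with h2 | h2
    · exact h2
    · exact absurd h2 (not_le.mpr h)

lemma v_sub' (hv : IsNonarchimedean v) {a b : F} (h : v a < v b) : v (a - b) = v b := by
  have h1 : a - b = -(b - a) := by ring
  rw [h1, v.map_neg, v_sub hv h]

lemma v_four (h2 : v 2 = 1 / 2) : v 4 = 1 / 4 := by
  rw [show (4 : F) = 2 * 2 by norm_num, v.map_mul, h2]
  norm_num

lemma v_odd (hv : IsNonarchimedean v) (h2 : v 2 = 1 / 2) (n : F) (hn : v n ≤ 1) :
    v (2 * n + 1) = 1 := by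
  have h1 : v (2 * n) < v 1 := by
    rw [v.map_mul, h2, v.map_one]
    linarith
  have h3 : 2 * n + 1 = 1 - -(2 * n) := by ring
  rw [h3, v_sub hv (by rw [v.map_neg]; exact h1), v.map_one]

lemma v_nat (hv : IsNonarchimedean v) (n : ℕ) : v (n : F) ≤ 1 := by
  induction n with
  | zero => rw [Nat.cast_zero, v.map_zero]; norm_num
  | succ n ih =>
    rw [Nat.cast_succ]
    refine (hv _ _).trans (max_le ih ?_)
    rw [v.map_one]

lemma v_dE_large (hv : IsNonarchimedean v) (h2 : v 2 = 1 / 2) {μ x : F} (h1 : 1 < v x)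
    (hμ : v μ < v x) : v (dE 0 (-1) (-μ) x) = 4 * v x := by
  have hx : v x ≠ 0 := by linarith
  have e1 : v (x - 1) = v x := v_sub hv (by rw [v.map_one]; exact h1)
  have e2 : v (x - μ) = v x := v_sub hv hμ
  have e3 : v (x ^ 2 - μ) = v x ^ 2 := by
    rw [v_sub hv, v.map_pow]
    rw [v.map_pow]
    nlinarith
  rw [dE_leg, fE_leg, map_div₀, v.map_pow, e3, v.map_mul, v.map_mul, v.map_mul, v_four h2, e1, e2]
  field_simp

lemma v_dE_small (hv : IsNonarchimedean v) (h2 : v 2 = 1 / 2) {μ x : F} (hx0 : x ≠ 0)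
    (h1 : v x ≤ 1 / 32) (hμ : 1 / 16 ≤ v μ) : v (dE 0 (-1) (-μ) x) = 4 * v μ / v x := by
  have hx : 0 < v x := v.pos hx0
  have e1 : v (x - 1) = 1 := by
    rw [v_sub' hv, v.map_one]
    rw [v.map_one]
    linarith
  have e2 : v (x - μ) = v μ := v_sub' hv (by linarith)
  have e3 : v (x ^ 2 - μ) = v μ := by
    apply v_sub' hv
    rw [v.map_pow]
    nlinarith
  have hμ' : v μ ≠ 0 := by linarith
  rw [dE_leg, fE_leg, map_div₀, v.map_pow, e3, v.map_mul, v.map_mul, v.map_mul, v_four h2, e1, e2]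
  field_simp

lemma large_orb (hv : IsNonarchimedean v) (h2 : v 2 = 1 / 2) {μ x : F} (h1 : 1 < v x)
    (hμ : v μ < v x) (k : ℕ) : v (orb 0 (-1) (-μ) k x) = 4 ^ k * v x := by
  have : ∀ k : ℕ, v (orb 0 (-1) (-μ) k x) = 4 ^ k * v x := by
    intro k
    induction k with
    | zero => simp [orb]
    | succ k ih =>
      have h4 : (1 : ℝ) ≤ 4 ^ k := one_le_pow₀ (by norm_num)
      change v (dE 0 (-1) (-μ) (orb 0 (-1) (-μ) k x)) = _
      rw [v_dE_large hv h2 (by rw [ih]; nlinarith) (by rw [ih]; nlinarith), ih]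
      ring
  exact this k

lemma inf_large (hv : IsNonarchimedean v) (h2 : v 2 = 1 / 2) {μ x : F} (h1 : 1 < v x)
    (hμ : v μ < v x) : Inf 0 (-1) (-μ) x := by
  refine ⟨fun k => ?_, fun k l hkl => ?_⟩
  · have h3 := large_orb hv h2 h1 hμ k
    set z := orb 0 (-1) (-μ) k x with hz
    have h4 : (1 : ℝ) ≤ 4 ^ k := one_le_pow₀ (by norm_num)
    have h5 : v x ≤ v z := by rw [h3]; nlinarith
    rw [fE_leg]
    refine mul_ne_zero (mul_ne_zero ?_ ?_) ?_
    · rintro h0
      rw [h0, v.map_zero] at h5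
      linarith
    · intro h0
      rw [sub_eq_zero.mp h0, v.map_one] at h5
      linarith
    · intro h0
      rw [sub_eq_zero.mp h0] at h5
      linarith
  · have h3 := large_orb hv h2 h1 hμ k
    have h4 := large_orb hv h2 h1 hμ l
    simp only at hkl
    rw [hkl, h4] at h3
    have h5 : (4 : ℝ) ^ l = 4 ^ k := mul_right_cancel₀ (by linarith : v x ≠ 0) h3
    exact (pow_right_injective₀ (by norm_num : (0 : ℝ) < 4) (by norm_num) h5).symm

lemma orb_succ' (e1 e2 e3 x : F) (k : ℕ) : orb e1 e2 e3 (k + 1) x = orb e1 e2 e3 k (dE e1 e2 e3 x) := by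
  induction k with
  | zero => rfl
  | succ k ih =>
    change dE e1 e2 e3 (orb e1 e2 e3 (k + 1) x) = dE e1 e2 e3 (orb e1 e2 e3 k (dE e1 e2 e3 x))
    rw [ih]

lemma inf_small (hv : IsNonarchimedean v) (h2 : v 2 = 1 / 2) {μ x : F} (hx0 : x ≠ 0)
    (h1 : v x ≤ 1 / 32) (hμ : 1 / 16 ≤ v μ) : Inf 0 (-1) (-μ) x := by
  have hx : 0 < v x := v.pos hx0
  have e1 := v_dE_small hv h2 hx0 h1 hμ
  have e2 : 128 * v μ ≤ v (dE 0 (-1) (-μ) x) := by
    rw [e1, le_div_iff₀ hx]
    nlinarith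
  have e3 : 1 < v (dE 0 (-1) (-μ) x) := by linarith
  have e4 : v μ < v (dE 0 (-1) (-μ) x) := by linarith
  have hI := inf_large hv h2 e3 e4
  have hL := large_orb hv h2 e3 e4
  have hlt : ∀ k, v x < v (orb 0 (-1) (-μ) (k + 1) x) := by
    intro k
    rw [orb_succ', hL k]
    have h4 : (1 : ℝ) ≤ 4 ^ k := one_le_pow₀ (by norm_num)
    nlinarith
  refine ⟨fun k => ?_, fun k l hkl => ?_⟩
  · match k with
    | 0 =>
      change fE 0 (-1) (-μ) x ≠ 0
      rw [fE_leg]
      refine mul_ne_zero (mul_ne_zero hx0 ?_) ?_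
      · intro h0
        rw [sub_eq_zero.mp h0, v.map_one] at h1
        norm_num at h1
      · intro h0
        rw [sub_eq_zero.mp h0] at h1
        linarith
    | k + 1 =>
      rw [orb_succ']
      exact hI.1 k
  · simp only at hkl
    match k, l with
    | 0, 0 => rfl
    | 0, l + 1 =>
      exfalso
      have := hlt l
      rw [← hkl] at this
      exact lt_irrefl _ this
    | k + 1, 0 =>
      exfalso
      have := hlt k
      rw [hkl] at this
      exact lt_irrefl _ this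
    | k + 1, l + 1 =>
      rw [orb_succ', orb_succ'] at hkl
      rw [hI.2 hkl]

/-- The points with `x = 1 / 512` and `x = 512`. -/
theorem pack_base [CharZero F] [IsAlgClosed F] (hv : IsNonarchimedean v) (h2 : v 2 = 1 / 2) {μ : F}
    (hμ1 : μ ≠ 1) (hμ2 : 1 / 16 ≤ v μ) (hμ3 : v μ ≤ 16) :
    ∃ c d, Pack 0 (-1) (-μ) (1 / 512) 512 c d := by
  have v512 : v 512 = 1 / 512 := by
    rw [show (512 : F) = 2 ^ 9 by norm_num, v.map_pow, h2]
    norm_num
  have v513 : v 513 = 1 := by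
    rw [show (513 : F) = 2 * ((256 : ℕ) : F) + 1 by norm_num]
    exact v_odd hv h2 _ (v_nat hv 256)
  have v511 : v 511 = 1 := by
    rw [show (511 : F) = 2 * ((255 : ℕ) : F) + 1 by norm_num]
    exact v_odd hv h2 _ (v_nat hv 255)
  have vt : v (1 / 512) = 512 := by
    rw [map_div₀, v.map_one, v512]
    norm_num
  set S : F := 2 * (1 + μ) * 512 / 513 ^ 2 with hS
  set Q : F := (1 - μ) ^ 2 * 512 ^ 2 / (513 ^ 2 * 511 ^ 2) with hQ
  have n513 : (513 : F) ≠ 0 := by norm_num
  have n511 : (511 : F) ≠ 0 := by norm_num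
  have n512 : (512 : F) ≠ 0 := by norm_num
  obtain ⟨r, hr⟩ := IsAlgClosed.exists_pow_nat_eq (S ^ 2 - 4 * Q) (by norm_num : 0 < 2)
  have two0 : (2 : F) ≠ 0 := by norm_num
  set c : F := (S + r) / 2 with hc
  set d : F := (S - r) / 2 with hd
  have hcd : c + d = S := by rw [hc, hd]; field_simp; ring
  have hcd' : c * d = Q := by
    have : c * d = (S ^ 2 - r ^ 2) / 4 := by
      rw [hc, hd]
      field_simp
      ring
    rw [this, hr]
    have h4 : (4 : F) ≠ 0 := by norm_num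
    field_simp
    ring
  have hQ0 : Q ≠ 0 := by
    rw [hQ]
    refine div_ne_zero (mul_ne_zero (pow_ne_zero 2 ?_) (pow_ne_zero 2 n512))
      (mul_ne_zero (pow_ne_zero 2 n513) (pow_ne_zero 2 n511))
    exact sub_ne_zero.mpr (Ne.symm hμ1)
  have hc0 : c ≠ 0 := fun h => hQ0 (by rw [← hcd', h, zero_mul])
  have hd0 : d ≠ 0 := fun h => hQ0 (by rw [← hcd', h, mul_zero])
  have h1μ : v (1 + μ) ≤ 16 := by
    refine (hv _ _).trans (max_le ?_ hμ3)
    rw [v.map_one]
    norm_num
  have h1μ' : v (1 - μ) ≤ 16 := by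
    have := hv 1 (-μ)
    rw [← sub_eq_add_neg, v.map_neg, v.map_one] at this
    exact this.trans (max_le (by norm_num) hμ3)
  have vS : v S ≤ 1 / 64 := by
    rw [hS, map_div₀, v.map_mul, v.map_mul, v.map_pow, h2, v512, v513]
    linarith
  have vQ : v Q ≤ 1 / 1024 := by
    rw [hQ, map_div₀, v.map_mul, v.map_mul, v.map_pow, v.map_pow, v.map_pow, v.map_pow, v512, v513,
      v511]
    have : v (1 - μ) ^ 2 ≤ 256 := by nlinarith [v.nonneg (1 - μ)]
    linarith
  have key : ∀ a b : F, a + b = S → a * b = Q → v a ≤ 1 / 32 := by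
    intro a b hab hab'
    by_contra hno
    push Not at hno
    have h3 : v a * v b ≤ 1 / 1024 := by rw [← v.map_mul, hab']; exact vQ
    have h4 : v b < v a := by
      by_contra h5
      push Not at h5
      nlinarith
    have h5 : a + b = a - -b := by ring
    have h6 : v (a + b) = v a := by
      rw [h5, v_sub hv]
      rw [v.map_neg]
      exact h4
    rw [hab] at h6
    linarith
  have vc : v c ≤ 1 / 32 := key c d hcd hcd'
  have vd : v d ≤ 1 / 32 := key d c (by rw [add_comm, hcd]) (by rw [mul_comm, hcd'])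
  refine ⟨c, d, ⟨?_, ?_, ?_, inf_small hv h2 hc0 vc hμ2, inf_small hv h2 hd0 vd hμ2, ?_, ?_⟩⟩
  · intro h0
    have : v (1 / 512) = v 512 := by rw [h0]
    rw [vt, v512] at this
    norm_num at this
  · exact inf_large hv h2 (by rw [vt]; norm_num) (by rw [vt]; linarith)
  · exact inf_small hv h2 n512 (by rw [v512]; norm_num) hμ2
  · rw [hcd, hS]
    unfold numr
    field_simp
    ring
  · rw [hcd', hQ]
    field_simp
    ring

end

end Pool.Agent.T9h40.K3
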