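import Pool.Agent.H437R2.Man.MWPar

/-!
Bihomogeneous forms of bidegree `(6, 6)` on the curve of genus two `s² = (r² + A₀)(r² + A₁)(r² + A₂)`.
-/

set_option autoImplicit false

open Height

namespace Pool.Agent.T9h40.K3

variable {K : Type} [Field K]

/-- the monomials of weight at most `6` in `r`, `s`, where `s` has weight `3`. -/
def mono (r s : K) : Fin 7 ⊕ Fin 4 → K := Sum.elim (fun i => r ^ (i : ℕ)) (fun j => r ^ (j : ℕ) * s)

/-- a form of bidegree at most `(6, 6)`. -/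
def Bi (f : K → K → K → K → K) : Prop :=
  ∃ c : (Fin 7 ⊕ Fin 4) × (Fin 7 ⊕ Fin 4) → K, ∀ r s q t,
    f r s q t = ∑ a, c a * (mono r s a.1 * mono q t a.2)

lemma Bi.add {f g : K → K → K → K → K} (hf : Bi f) (hg : Bi g) :
    Bi (fun r s q t => f r s q t + g r s q t) := by
  obtain ⟨c, hc⟩ := hf
  obtain ⟨d, hd⟩ := hg
  refine ⟨fun a => c a + d a, fun r s q t => ?_⟩
  beta_reduce
  rw [hc, hd, ← Finset.sum_add_distrib]
  exact Finset.sum_congr rfl fun a _ => by ring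

lemma Bi.smul {f : K → K → K → K → K} (k : K) (hf : Bi f) :
    Bi (fun r s q t => k * f r s q t) := by
  obtain ⟨c, hc⟩ := hf
  refine ⟨fun a => k * c a, fun r s q t => ?_⟩
  beta_reduce
  rw [hc, Finset.mul_sum]
  exact Finset.sum_congr rfl fun a _ => by ring

lemma m0 (i j : ℕ) (hi : i < 7) (hj : j < 7) : Bi (fun r _ q _ : K => r ^ i * q ^ j) := by
  classical
  refine ⟨fun a => if a = (Sum.inl ⟨i, hi⟩, Sum.inl ⟨j, hj⟩) then 1 else 0, fun r s q t => ?_⟩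
  simp only [ite_mul, one_mul, zero_mul, Finset.sum_ite_eq', Finset.mem_univ, if_true]
  simp [mono]

lemma m1 (i j : ℕ) (hi : i < 4) (hj : j < 4) : Bi (fun r s q t : K => r ^ i * q ^ j * (s * t)) := by
  classical
  refine ⟨fun a => if a = (Sum.inr ⟨i, hi⟩, Sum.inr ⟨j, hj⟩) then 1 else 0, fun r s q t => ?_⟩
  simp only [ite_mul, one_mul, zero_mul, Finset.sum_ite_eq', Finset.mem_univ, if_true]
  simp only [mono, Sum.elim_inr]
  ring

lemma Bi.congr {f g : K → K → K → K → K} (hf : Bi f) (h : ∀ r s q t, g r s q t = f r s q t) : Bi g := by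
  obtain ⟨c, hc⟩ := hf
  exact ⟨c, fun r s q t => by rw [h, hc]⟩

/-- numerator of `x(P + P') - γ`. -/
def NU (e1 e2 e3 r s q t : K) : K :=
  (r ^ 2 * q ^ 2 + e2) * (r ^ 2 + q ^ 2) + 2 * (e1 * (r ^ 2 * q ^ 2) + e3) - 2 * (s * t)

/-- numerator of `x(Q + Q') - α`. -/
def NV (e1 e2 e3 r s q t : K) : K :=
  (e1 * (r ^ 2 * q ^ 2) + e3) * (r ^ 2 + q ^ 2) + 2 * (r ^ 2 * q ^ 2) * (r ^ 2 * q ^ 2 + e2)
    - 2 * (r * q) * (s * t)

/-- the product of the numerators divided by `(r + q)²`. -/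
def MM (e1 e2 e3 r s q t : K) : K :=
  (2 * e3 ^ 2) * (r ^ 0 * q ^ 0)
    + ((-2) * e3) * (r ^ 0 * q ^ 0 * (s * t))
    + (1 * e2 * e3) * (r ^ 0 * q ^ 2)
    + (2 * e2 * e3) * (r ^ 1 * q ^ 1)
    + ((-2) * e2) * (r ^ 1 * q ^ 1 * (s * t))
    + (4 * e1 * e3) * (r ^ 1 * q ^ 3)
    + (4 * e3) * (r ^ 1 * q ^ 5)
    + (1 * e2 * e3) * (r ^ 2 * q ^ 0)
    + (2 * e2 ^ 2 + (-4) * e1 * e3) * (r ^ 2 * q ^ 2)
    + ((-2) * e1) * (r ^ 2 * q ^ 2 * (s * t))
    + ((-7) * e3 + 1 * e1 * e2) * (r ^ 2 * q ^ 4)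
    + (4 * e1 * e3) * (r ^ 3 * q ^ 1)
    + (10 * e3 + 2 * e1 * e2) * (r ^ 3 * q ^ 3)
    + ((-2)) * (r ^ 3 * q ^ 3 * (s * t))
    + (4 * e2) * (r ^ 3 * q ^ 5)
    + ((-7) * e3 + 1 * e1 * e2) * (r ^ 4 * q ^ 2)
    + ((-4) * e2 + 2 * e1 ^ 2) * (r ^ 4 * q ^ 4)
    + (1 * e1) * (r ^ 4 * q ^ 6)
    + (4 * e3) * (r ^ 5 * q ^ 1)
    + (4 * e2) * (r ^ 5 * q ^ 3)
    + (2 * e1) * (r ^ 5 * q ^ 5)
    + (1 * e1) * (r ^ 6 * q ^ 4)
    + (2) * (r ^ 6 * q ^ 6)

lemma NU_mul_NV {e1 e2 e3 r s q t : K} (hs : s ^ 2 = r ^ 6 + e1 * r ^ 4 + e2 * r ^ 2 + e3)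
    (ht : t ^ 2 = q ^ 6 + e1 * q ^ 4 + e2 * q ^ 2 + e3) :
    NU e1 e2 e3 r s q t * NV e1 e2 e3 r s q t = (r + q) ^ 2 * MM e1 e2 e3 r s q t := by
  unfold NU NV MM
  linear_combination (4 * (r * q) * t ^ 2) * hs + (4 * (r * q) * (r ^ 6 + e1 * r ^ 4 + e2 * r ^ 2 + e3)) * ht

lemma bi_c0 (e3 : K) : Bi (fun r _ q _ : K => e3 * (r ^ 2 + q ^ 2 - 2 * (r * q)) ^ 2 * (r ^ 2 + q ^ 2 + 2 * (r * q))) := by
  refine Bi.congr ((((((((m0 0 6 (by norm_num) (by norm_num)).smul (1 * e3)).add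
    ((m0 1 5 (by norm_num) (by norm_num)).smul ((-2) * e3))).add
    ((m0 2 4 (by norm_num) (by norm_num)).smul ((-1) * e3))).add
    ((m0 3 3 (by norm_num) (by norm_num)).smul (4 * e3))).add
    ((m0 4 2 (by norm_num) (by norm_num)).smul ((-1) * e3))).add
    ((m0 5 1 (by norm_num) (by norm_num)).smul ((-2) * e3))).add
    ((m0 6 0 (by norm_num) (by norm_num)).smul (1 * e3))) fun r _ q _ => ?_
  ring

lemma bi_c1 (e1 e2 e3 : K) : Bi (fun r s q t : K => e3 * NU e1 e2 e3 r s q t * (r ^ 2 + q ^ 2 - 2 * (r * q))) := by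
  refine Bi.congr ((((((((((((((((((((m0 0 2 (by norm_num) (by norm_num)).smul (2 * e3 ^ 2)).add
    ((m1 0 2 (by norm_num) (by norm_num)).smul ((-2) * e3))).add
    ((m0 0 4 (by norm_num) (by norm_num)).smul (1 * e2 * e3))).add
    ((m0 1 1 (by norm_num) (by norm_num)).smul ((-4) * e3 ^ 2))).add
    ((m1 1 1 (by norm_num) (by norm_num)).smul (4 * e3))).add
    ((m0 1 3 (by norm_num) (by norm_num)).smul ((-2) * e2 * e3))).add
    ((m0 2 0 (by norm_num) (by norm_num)).smul (2 * e3 ^ 2))).add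
    ((m1 2 0 (by norm_num) (by norm_num)).smul ((-2) * e3))).add
    ((m0 2 2 (by norm_num) (by norm_num)).smul (2 * e2 * e3))).add
    ((m0 2 4 (by norm_num) (by norm_num)).smul (2 * e1 * e3))).add
    ((m0 2 6 (by norm_num) (by norm_num)).smul (1 * e3))).add
    ((m0 3 1 (by norm_num) (by norm_num)).smul ((-2) * e2 * e3))).add
    ((m0 3 3 (by norm_num) (by norm_num)).smul ((-4) * e1 * e3))).add
    ((m0 3 5 (by norm_num) (by norm_num)).smul ((-2) * e3))).add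
    ((m0 4 0 (by norm_num) (by norm_num)).smul (1 * e2 * e3))).add
    ((m0 4 2 (by norm_num) (by norm_num)).smul (2 * e1 * e3))).add
    ((m0 4 4 (by norm_num) (by norm_num)).smul (2 * e3))).add
    ((m0 5 3 (by norm_num) (by norm_num)).smul ((-2) * e3))).add
    ((m0 6 2 (by norm_num) (by norm_num)).smul (1 * e3))) fun r s q t => ?_
  unfold NU
  ring

lemma bi_c2 (e1 e2 e3 : K) : Bi (fun r s q t : K => NV e1 e2 e3 r s q t * (r ^ 2 + q ^ 2 - 2 * (r * q))) := by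
  refine Bi.congr ((((((((((((((((((((m0 0 4 (by norm_num) (by norm_num)).smul (1 * e3)).add
    ((m0 1 3 (by norm_num) (by norm_num)).smul ((-2) * e3))).add
    ((m1 1 3 (by norm_num) (by norm_num)).smul ((-2)))).add
    ((m0 2 2 (by norm_num) (by norm_num)).smul (2 * e3))).add
    ((m1 2 2 (by norm_num) (by norm_num)).smul (4))).add
    ((m0 2 4 (by norm_num) (by norm_num)).smul (2 * e2))).add
    ((m0 2 6 (by norm_num) (by norm_num)).smul (1 * e1))).add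
    ((m0 3 1 (by norm_num) (by norm_num)).smul ((-2) * e3))).add
    ((m1 3 1 (by norm_num) (by norm_num)).smul ((-2)))).add
    ((m0 3 3 (by norm_num) (by norm_num)).smul ((-4) * e2))).add
    ((m0 3 5 (by norm_num) (by norm_num)).smul ((-2) * e1))).add
    ((m0 4 0 (by norm_num) (by norm_num)).smul (1 * e3))).add
    ((m0 4 2 (by norm_num) (by norm_num)).smul (2 * e2))).add
    ((m0 4 4 (by norm_num) (by norm_num)).smul (2 * e1))).add
    ((m0 4 6 (by norm_num) (by norm_num)).smul (2))).add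
    ((m0 5 3 (by norm_num) (by norm_num)).smul ((-2) * e1))).add
    ((m0 5 5 (by norm_num) (by norm_num)).smul ((-4)))).add
    ((m0 6 2 (by norm_num) (by norm_num)).smul (1 * e1))).add
    ((m0 6 4 (by norm_num) (by norm_num)).smul (2))) fun r s q t => ?_
  unfold NV
  ring

lemma bi_c3 (e1 e2 e3 : K) : Bi (fun r s q t : K => MM e1 e2 e3 r s q t) := by
  refine Bi.congr ((((((((((((((((((((((((m0 0 0 (by norm_num) (by norm_num)).smul (2 * e3 ^ 2)).add
    ((m1 0 0 (by norm_num) (by norm_num)).smul ((-2) * e3))).add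
    ((m0 0 2 (by norm_num) (by norm_num)).smul (1 * e2 * e3))).add
    ((m0 1 1 (by norm_num) (by norm_num)).smul (2 * e2 * e3))).add
    ((m1 1 1 (by norm_num) (by norm_num)).smul ((-2) * e2))).add
    ((m0 1 3 (by norm_num) (by norm_num)).smul (4 * e1 * e3))).add
    ((m0 1 5 (by norm_num) (by norm_num)).smul (4 * e3))).add
    ((m0 2 0 (by norm_num) (by norm_num)).smul (1 * e2 * e3))).add
    ((m0 2 2 (by norm_num) (by norm_num)).smul (2 * e2 ^ 2 + (-4) * e1 * e3))).add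
    ((m1 2 2 (by norm_num) (by norm_num)).smul ((-2) * e1))).add
    ((m0 2 4 (by norm_num) (by norm_num)).smul ((-7) * e3 + 1 * e1 * e2))).add
    ((m0 3 1 (by norm_num) (by norm_num)).smul (4 * e1 * e3))).add
    ((m0 3 3 (by norm_num) (by norm_num)).smul (10 * e3 + 2 * e1 * e2))).add
    ((m1 3 3 (by norm_num) (by norm_num)).smul ((-2)))).add
    ((m0 3 5 (by norm_num) (by norm_num)).smul (4 * e2))).add
    ((m0 4 2 (by norm_num) (by norm_num)).smul ((-7) * e3 + 1 * e1 * e2))).add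
    ((m0 4 4 (by norm_num) (by norm_num)).smul ((-4) * e2 + 2 * e1 ^ 2))).add
    ((m0 4 6 (by norm_num) (by norm_num)).smul (1 * e1))).add
    ((m0 5 1 (by norm_num) (by norm_num)).smul (4 * e3))).add
    ((m0 5 3 (by norm_num) (by norm_num)).smul (4 * e2))).add
    ((m0 5 5 (by norm_num) (by norm_num)).smul (2 * e1))).add
    ((m0 6 4 (by norm_num) (by norm_num)).smul (1 * e1))).add
    ((m0 6 6 (by norm_num) (by norm_num)).smul (2))) fun r s q t => ?_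
  unfold MM
  ring

end Pool.Agent.T9h40.K3
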