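import Pool.Agent.T9h40.Adic

/-!
Infinite chains of isogenies of degree two with small parameters; they are not defined over a number
field.
-/

set_option autoImplicit false

open WeierstrassCurve Height

namespace Pool.Agent.T9h40.K3

open Pool.Agent.H437R2.Man.MW

section

variable {F : Type} [Field F]

/-- the parameters of the curves -/
def muS (lam : F) (s : ℕ → F) : ℕ → F
  | 0 => lam
  | n + 1 => s n ^ 2

/-- the isogeny from the `n`-th curve to the first one. -/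
def rho (s : ℕ → F) : ℕ → F → F
  | 0, x => x
  | n + 1, x => rho s n (tau (s n) x)

/-- a chain of isogenies -/
structure Chain (lam : F) (s : ℕ → F) : Prop where
  h0 : ∀ n, s n ≠ 0
  h1 : ∀ n, 1 + s n ≠ 0
  h2 : ∀ n, s n ^ 2 ≠ 1
  hm : ∀ n, muf (s n) = muS lam s n

lemma pack_rho [CharZero F] {lam : F} {s : ℕ → F} (hc : Chain lam s) (n : ℕ) {x1 x2 c d : F}
    (hp : Pack 0 (-1) (-muS lam s n) x1 x2 c d) :
    Pack 0 (-1) (-lam) (rho s n x1) (rho s n x2) (rho s n c) (rho s n d) := by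
  induction n generalizing x1 x2 c d with
  | zero => exact hp
  | succ n ih =>
    apply ih
    rw [← hc.hm n]
    exact pack_tau (hc.h1 n) (hc.h0 n) hp

lemma val_le {v : AbsoluteValue F ℝ} (hv : IsNonarchimedean v) (h2 : v 2 = 1 / 2) {s μ : F}
    (hs : 1 + s ≠ 0) (hm : muf s = μ) (hμ : 1 / 16 ≤ v μ) : v s ≤ 4 := by
  by_contra hno
  push Not at hno
  have h1 : μ * (1 + s) ^ 2 = 4 * s := by
    rw [← hm]
    unfold muf
    rw [div_mul_cancel₀ _ (pow_ne_zero 2 hs)]
  have h3 : v (1 + s) = v s := by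
    rw [show 1 + s = s - (-1) by ring, v_sub hv]
    rw [v.map_neg, v.map_one]
    linarith
  have h4 := congrArg v h1
  rw [v.map_mul, v.map_pow, h3, v.map_mul, v_four h2] at h4
  have h5 : v s * (v μ * v s - 1 / 4) = 0 := by linarith
  rcases mul_eq_zero.mp h5 with h6 | h6
  · linarith
  · nlinarith

lemma muf_inv {s : F} (hs : 1 + s ≠ 0) (h0 : s ≠ 0) : muf s⁻¹ = muf s := by
  have h1 : 1 + s⁻¹ ≠ 0 := by
    intro h
    apply hs
    have : s * (1 + s⁻¹) = 1 + s := by field_simp; ring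
    rw [← this, h, mul_zero]
  unfold muf
  have h2 : 1 + s⁻¹ = (1 + s) / s := by field_simp; ring
  rw [h2]
  field_simp

lemma tau_inv {s x : F} (hs : 1 + s ≠ 0) (h0 : s ≠ 0) (hx : x ≠ 0) : tau s⁻¹ x = tau s (1 / x) := by
  unfold tau
  have h2 : 1 + s⁻¹ = (1 + s) / s := by field_simp; ring
  rw [h2]
  field_simp
  ring

lemma val_mem {v : AbsoluteValue F ℝ} (hv : IsNonarchimedean v) (h2 : v 2 = 1 / 2) {s μ : F}
    (hs : 1 + s ≠ 0) (h0 : s ≠ 0) (hm : muf s = μ) (hμ : 1 / 16 ≤ v μ) :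
    1 / 16 ≤ v (s ^ 2) ∧ v (s ^ 2) ≤ 16 := by
  have h1 := val_le hv h2 hs hm hμ
  have hs' : 1 + s⁻¹ ≠ 0 := by
    have h2 : 1 + s⁻¹ = (1 + s) / s := by field_simp; ring
    rw [h2]
    exact div_ne_zero hs h0
  have h3 := val_le hv h2 hs' ((muf_inv hs h0).trans hm) hμ
  rw [map_inv₀] at h3
  have h4 : 0 < v s := v.pos h0
  have h5 : 1 / 4 ≤ v s := by
    rw [inv_le_comm₀ h4 (by norm_num)] at h3
    linarith
  rw [v.map_pow]
  constructor <;> nlinarith

lemma norm_one_add_lt {z : ℂ} (h1 : ‖z‖ ≤ 1) (h2 : z ≠ 1) : ‖1 + z‖ < 2 := by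
  have h3 : z.re < 1 := by
    rcases lt_or_eq_of_le ((Complex.re_le_norm z).trans h1) with h | h
    · exact h
    · exfalso
      apply h2
      have h4 : z.re ^ 2 + z.im ^ 2 ≤ 1 := by
        have := Complex.sq_norm z
        rw [Complex.normSq_apply] at this
        nlinarith [norm_nonneg z]
      have h5 : z.im = 0 := by
        have : z.im ^ 2 ≤ 0 := by rw [h] at h4; linarith
        exact pow_eq_zero_iff (n := 2) (by norm_num) |>.mp (le_antisymm this (sq_nonneg _))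
      apply Complex.ext
      · rw [h, Complex.one_re]
      · rw [h5, Complex.one_im]
  have h4 : ‖1 + z‖ ^ 2 < 2 ^ 2 := by
    rw [Complex.sq_norm, Complex.normSq_apply]
    have h5 : z.re ^ 2 + z.im ^ 2 ≤ 1 := by
      have := Complex.sq_norm z
      rw [Complex.normSq_apply] at this
      nlinarith [norm_nonneg z]
    simp only [Complex.add_re, Complex.one_re, Complex.add_im, Complex.one_im]
    nlinarith
  exact lt_of_pow_lt_pow_left₀ 2 (by norm_num) h4

/-- one step of the chain -/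
lemma chain_step [CharZero F] [IsAlgClosed F] (ι : F →+* ℂ) {μ : F} (h0 : μ ≠ 0) (h1 : μ ≠ 1) :
    ∃ s : F, s ≠ 0 ∧ 1 + s ≠ 0 ∧ s ^ 2 ≠ 1 ∧ muf s = μ ∧ ‖ι s‖ ≤ 1 ∧ ‖ι s‖ < ‖ι μ‖ := by
  obtain ⟨u, hu, hre⟩ : ∃ u : F, u ^ 2 = 1 - μ ∧ 0 ≤ (ι u).re := by
    obtain ⟨u, hu⟩ := IsAlgClosed.exists_pow_nat_eq (1 - μ) (by norm_num : 0 < 2)
    rcases le_total 0 (ι u).re with h | h
    · exact ⟨u, hu, h⟩
    · refine ⟨-u, by rw [neg_sq, hu], ?_⟩
      rw [map_neg, Complex.neg_re]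
      linarith
  have u0 : u ≠ 0 := by
    rintro rfl
    apply h1
    linear_combination hu
  have u1 : 1 + u ≠ 0 := by
    intro h
    apply h0
    linear_combination hu + (1 - u) * h
  have u2 : 1 - u ≠ 0 := by
    intro h
    apply h0
    linear_combination hu + (1 + u) * h
  have h2 : (2 : F) ≠ 0 := by norm_num
  set s : F := (1 - u) / (1 + u) with hs
  have e1 : 1 + s = 2 / (1 + u) := by rw [hs]; field_simp; ring
  have s0 : s ≠ 0 := div_ne_zero u2 u1
  have s1 : 1 + s ≠ 0 := by rw [e1]; exact div_ne_zero h2 u1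
  have s2 : s ≠ 1 := by
    intro h
    rw [hs, div_eq_one_iff_eq u1] at h
    apply u0
    have : 2 * u = 0 := by linear_combination -h
    exact (mul_eq_zero.mp this).resolve_left h2
  have hm : muf s = μ := by
    have h4 : (4 : F) ≠ 0 := by norm_num
    unfold muf
    rw [e1, hs]
    have h5 : μ = (1 - u) * (1 + u) := by linear_combination hu
    rw [h5]
    field_simp
    norm_num
  have n1 : ‖ι s‖ ≤ 1 := by
    rw [hs, map_div₀, norm_div, map_sub, map_add, map_one]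
    have h5 : 1 + ι u ≠ 0 := by
      rw [← map_one ι, ← map_add]
      exact (map_ne_zero ι).mpr u1
    rw [div_le_one (norm_pos_iff.mpr h5)]
    have h6 : ‖1 - ι u‖ ^ 2 ≤ ‖1 + ι u‖ ^ 2 := by
      rw [Complex.sq_norm, Complex.normSq_apply, Complex.sq_norm, Complex.normSq_apply]
      simp only [Complex.add_re, Complex.one_re, Complex.add_im, Complex.one_im, Complex.sub_re,
        Complex.sub_im]
      nlinarith
    exact le_of_sq_le_sq h6 (norm_nonneg _)
  refine ⟨s, s0, s1, ?_, hm, n1, ?_⟩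
  · intro h
    have : (s - 1) * (1 + s) = 0 := by linear_combination h
    rcases mul_eq_zero.mp this with h3 | h3
    · exact s2 (sub_eq_zero.mp h3)
    · exact s1 h3
  · have h5 : μ * (1 + s) ^ 2 = 4 * s := by
      rw [← hm]
      unfold muf
      rw [div_mul_cancel₀ _ (pow_ne_zero 2 s1)]
    have h6 := congrArg (fun z => ‖ι z‖) h5
    simp only [map_mul, map_pow, norm_mul, norm_pow, map_add, map_one] at h6
    rw [show ‖ι (4 : F)‖ = 4 by rw [map_ofNat]; norm_num] at h6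
    have h7 : ‖1 + ι s‖ < 2 := norm_one_add_lt n1 (by
      intro h
      apply s2
      apply ι.injective
      rw [h, map_one])
    have h8 : 0 < ‖ι μ‖ := norm_pos_iff.mpr ((map_ne_zero ι).mpr h0)
    have h9 : ‖1 + ι s‖ ^ 2 < 4 := by nlinarith [norm_nonneg (1 + ι s)]
    nlinarith

/-- The chain. -/
theorem exists_chain [CharZero F] [IsAlgClosed F] (ι : F →+* ℂ) {v : AbsoluteValue F ℝ}
    (hv : IsNonarchimedean v) (h2 : v 2 = 1 / 2) {lam : F} (h0 : lam ≠ 0) (h1 : lam ≠ 1)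
    (hl : 1 / 16 ≤ v lam) :
    ∃ s : ℕ → F, Chain lam s ∧ (∀ n, ‖ι (s n)‖ ≤ 1 ∧ ‖ι (s n)‖ < ‖ι (muS lam s n)‖) ∧
      ∀ n, 1 / 16 ≤ v (s n ^ 2) ∧ v (s n ^ 2) ≤ 16 := by
  have hS : ∀ μ : F, ∃ s : F, μ ≠ 0 → μ ≠ 1 →
      (s ≠ 0 ∧ 1 + s ≠ 0 ∧ s ^ 2 ≠ 1 ∧ muf s = μ ∧ ‖ι s‖ ≤ 1 ∧ ‖ι s‖ < ‖ι μ‖) := by
    intro μ
    by_cases h : μ ≠ 0 ∧ μ ≠ 1
    · obtain ⟨s, hs⟩ := chain_step ι h.1 h.2
      exact ⟨s, fun _ _ => hs⟩
    · exact ⟨0, fun h3 h4 => absurd ⟨h3, h4⟩ h⟩
  choose S hS' using hS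
  let s : ℕ → F := fun n => Nat.rec (S lam) (fun _ z => S (z ^ 2)) n
  have hs : ∀ n, s n = S (muS lam s n) := by
    intro n
    cases n with
    | zero => rfl
    | succ n => rfl
  have hμ : ∀ n, muS lam s n ≠ 0 ∧ muS lam s n ≠ 1 := by
    intro n
    induction n with
    | zero => exact ⟨h0, h1⟩
    | succ n ih =>
      have h3 := hS' _ ih.1 ih.2
      rw [← hs] at h3
      exact ⟨pow_ne_zero 2 h3.1, h3.2.2.1⟩
  have hall : ∀ n, s n ≠ 0 ∧ 1 + s n ≠ 0 ∧ s n ^ 2 ≠ 1 ∧ muf (s n) = muS lam s n ∧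
      ‖ι (s n)‖ ≤ 1 ∧ ‖ι (s n)‖ < ‖ι (muS lam s n)‖ := by
    intro n
    have h3 := hS' _ (hμ n).1 (hμ n).2
    rw [← hs] at h3
    exact h3
  refine ⟨s, ⟨fun n => (hall n).1, fun n => (hall n).2.1, fun n => (hall n).2.2.1,
    fun n => (hall n).2.2.2.1⟩, fun n => (hall n).2.2.2.2, fun n => ?_⟩
  have hval : ∀ n, 1 / 16 ≤ v (muS lam s n) := by
    intro n
    induction n with
    | zero => exact hl
    | succ n ih => exact (val_mem hv h2 (hall n).2.1 (hall n).1 (hall n).2.2.2.1 ih).1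
  exact val_mem hv h2 (hall n).2.1 (hall n).1 (hall n).2.2.2.1 (hval n)

end

section heights

variable {K : Type} [Field K] [NumberField K]

/-- Liouville's inequality. -/
lemma neg_log_le (ι : K →+* ℂ) {z : K} (hz : z ≠ 0) : -Real.log ‖ι z‖ ≤ logHeight₁ z := by
  rw [← logHeight₁_inv, NumberField.logHeight₁_eq]
  have h1 : (0 : ℝ) ≤ ∑ᶠ v : NumberField.FinitePlace K, Real.posLog (v z⁻¹) :=
    finsum_nonneg fun v => Real.posLog_nonneg
  have h2 : (NumberField.InfinitePlace.mk ι).mult * Real.posLog (NumberField.InfinitePlace.mk ι z⁻¹) ≤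
      ∑ v : NumberField.InfinitePlace K, v.mult * Real.posLog (v z⁻¹) :=
    Finset.single_le_sum (f := fun v : NumberField.InfinitePlace K => v.mult * Real.posLog (v z⁻¹))
      (fun v _ => mul_nonneg (Nat.cast_nonneg _) Real.posLog_nonneg) (Finset.mem_univ _)
  have h3 : (1 : ℝ) ≤ (NumberField.InfinitePlace.mk ι).mult := by
    have := NumberField.InfinitePlace.mult_pos (w := NumberField.InfinitePlace.mk ι)
    exact_mod_cast this
  have h4 : -Real.log ‖ι z‖ ≤ Real.posLog (NumberField.InfinitePlace.mk ι z⁻¹) := by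
    rw [NumberField.InfinitePlace.apply, map_inv₀, norm_inv, ← Real.log_inv]
    exact le_max_right _ _
  have h5 : 0 ≤ Real.posLog (NumberField.InfinitePlace.mk ι z⁻¹) := Real.posLog_nonneg
  nlinarith

/-- the heights of the parameters grow at most linearly. -/
lemma height_step : ∃ C : ℝ, ∀ z w : K, z ≠ 0 → w ≠ 0 → 1 + w ≠ 0 → muf w = z ^ 2 →
    logHeight₁ w ≤ logHeight₁ z + C := by
  obtain ⟨C, hC⟩ := logHeight_sym2_ge K
  refine ⟨(totalWeight K * Real.log 2 + logHeight₁ (4 : K) + logHeight₁ (2 : K) - C) / 2, ?_⟩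
  intro z w hz hw hw1 hm
  have h1 : w + w⁻¹ = 4 * (z⁻¹) ^ 2 - 2 := by
    rw [inv_pow, ← hm]
    unfold muf
    have h4 : (4 : K) ≠ 0 := by norm_num
    field_simp
    ring
  have h2 := hC (a := w) (b := 1) (c := w⁻¹) (d := 1) (by simp) (by simp)
  have h3 : logHeight ![w * w⁻¹, w * 1 + 1 * w⁻¹, 1 * 1] ≤ logHeight₁ (w + w⁻¹) := by
    rw [logHeight₁_eq_logHeight, mul_inv_cancel₀ hw, mul_one, one_mul, one_mul]
    have h4 : ![(1 : K), w + w⁻¹, 1] = ![w + w⁻¹, 1] ∘ ![(1 : Fin 2), 0, 1] := by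
      funext i
      fin_cases i <;> rfl
    rw [h4]
    exact logHeight_comp_le _ _
  rw [← logHeight₁_eq_logHeight, ← logHeight₁_eq_logHeight, logHeight₁_inv] at h2
  have h4 : logHeight₁ (w + w⁻¹) ≤ totalWeight K * Real.log 2 + (logHeight₁ (4 : K) + 2 * logHeight₁ z) +
      logHeight₁ (2 : K) := by
    rw [h1]
    refine (logHeight₁_sub_le _ _).trans ?_
    have h5 : logHeight₁ (4 * (z⁻¹) ^ 2) ≤ logHeight₁ (4 : K) + 2 * logHeight₁ z := by
      refine (logHeight₁_mul_le _ _).trans ?_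
      rw [logHeight₁_pow, logHeight₁_inv]
      norm_num
    linarith
  linarith

/-- The chain is not defined over a number field. -/
theorem chain_not_mem {F : Type} [Field F] (ι : F →+* ℂ) (j : K →+* F) {lam : F} {s : ℕ → F}
    (hc : Chain lam s) (ha : ∀ n, ‖ι (s n)‖ ≤ 1 ∧ ‖ι (s n)‖ < ‖ι (muS lam s n)‖) :
    ∃ n, s n ∉ j.range := by
  by_contra hno
  push Not at hno
  choose z hz using hno
  obtain ⟨C, hC⟩ := height_step (K := K)
  have hz0 : ∀ n, z n ≠ 0 := by
    intro n h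
    apply hc.h0 n
    rw [← hz, h, map_zero]
  have hh : ∀ n, logHeight₁ (z n) ≤ logHeight₁ (z 0) + n * C := by
    intro n
    induction n with
    | zero => simp
    | succ n ih =>
      have h1 := hC (z n) (z (n + 1)) (hz0 n) (hz0 (n + 1)) (by
        intro h
        apply hc.h1 (n + 1)
        rw [← hz, ← map_one j, ← map_add, h, map_zero]) (by
        apply j.injective
        have h2 := hc.hm (n + 1)
        change muf (s (n + 1)) = s n ^ 2 at h2
        rw [map_pow, hz, ← h2, ← hz (n + 1)]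
        unfold muf
        rw [map_div₀, map_mul, map_pow, map_add, map_one, map_ofNat])
      push_cast
      linarith
  have hpos : ∀ n, 0 < ‖ι (s n)‖ := fun n => norm_pos_iff.mpr ((map_ne_zero ι).mpr (hc.h0 n))
  have hlog : ∀ n, 2 ^ n * -Real.log ‖ι (s 1)‖ ≤ -Real.log ‖ι (s (n + 1))‖ := by
    intro n
    induction n with
    | zero => simp
    | succ n ih =>
      have h1 : ‖ι (s (n + 1 + 1))‖ ≤ ‖ι (s (n + 1))‖ ^ 2 := by
        have h2 := (ha (n + 1 + 1)).2
        change _ < ‖ι (s (n + 1) ^ 2)‖ at h2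
        rw [map_pow, norm_pow] at h2
        exact h2.le
      have h3 := Real.log_le_log (hpos _) h1
      rw [Real.log_pow] at h3
      rw [pow_succ]
      push_cast at h3
      nlinarith
  have h1 : ‖ι (s 1)‖ < 1 := by
    have h2 := (ha 1).2
    change _ < ‖ι (s 0 ^ 2)‖ at h2
    rw [map_pow, norm_pow] at h2
    have h3 := (ha 0).1
    nlinarith [hpos 0]
  set δ : ℝ := -Real.log ‖ι (s 1)‖ with hδ
  have hδ0 : 0 < δ := by
    rw [hδ]
    have := Real.log_neg (hpos 1) h1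
    linarith
  have hall : ∀ n : ℕ, 2 ^ n * δ ≤ logHeight₁ (z 0) + (n + 1) * C := by
    intro n
    have h2 := neg_log_le (ι.comp j) (hz0 (n + 1))
    rw [RingHom.comp_apply, hz] at h2
    have h3 := hh (n + 1)
    have h4 := hlog n
    push_cast at h3
    linarith
  -- exponential growth
  set A : ℝ := |logHeight₁ (z 0)| + |C| with hA
  have hA0 : 0 ≤ A := by positivity
  have hall' : ∀ n : ℕ, 2 ^ n * δ ≤ (n + 1) * A := by
    intro n
    refine (hall n).trans ?_
    have h2 := le_abs_self (logHeight₁ (z 0))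
    have h3 := le_abs_self C
    have h4 : (0 : ℝ) ≤ n := Nat.cast_nonneg n
    have h5 := abs_nonneg (logHeight₁ (z 0))
    rw [hA]
    nlinarith
  have hlim := tendsto_pow_const_div_const_pow_of_one_lt 1 (by norm_num : (1 : ℝ) < 2)
  have hlim2 : Filter.Tendsto (fun n : ℕ => ((n : ℝ) ^ 1 / 2 ^ n) * A + (1 / 2) ^ n * A)
      Filter.atTop (nhds (0 * A + 0 * A)) :=
    (hlim.mul_const A).add
      ((tendsto_pow_atTop_nhds_zero_of_lt_one (by norm_num) (by norm_num)).mul_const A)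
  rw [zero_mul, add_zero] at hlim2
  have h6 := ge_of_tendsto hlim2 (Filter.Eventually.of_forall (fun n => show δ ≤ _ by
    have h7 := hall' n
    have h8 : (0 : ℝ) < 2 ^ n := by positivity
    have h9 : ((n : ℝ) ^ 1 / 2 ^ n) * A + (1 / 2) ^ n * A = ((n + 1) * A) / 2 ^ n := by
      rw [div_pow, one_pow]
      field_simp
    rw [h9, le_div_iff₀ h8]
    linarith))
  linarith

end heights

end Pool.Agent.T9h40.K3
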