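import Mathlib

/-!
Almost orthogonal vectors are linearly independent.
-/

set_option autoImplicit false

namespace Pool.Agent.T9h40.K3

theorem indep_of_gap {G : Type} [AddCommGroup G] (B : G →+ G →+ ℝ) (Q : ℕ → G) (k0 : ℕ) (c C : ℝ)
    (hc : 0 < c) (hC : 0 ≤ C)
    (h1 : ∀ k ≥ k0, c * (k : ℝ) ^ 2 - C ≤ B (Q k) (Q k))
    (h2 : ∀ k ≥ k0, ∀ l ≥ k0, k ≠ l → |B (Q k) (Q l)| ≤ C * ((k : ℝ) - l) ^ 2 + C) (n : ℕ) :
    ∃ K ≥ k0, LinearIndependent ℤ (fun i : Fin n => Q (K + i)) := by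
  set D : ℝ := n * (C * (n : ℝ) ^ 2 + C) with hD
  have hD0 : 0 ≤ D := by positivity
  obtain ⟨K1, hK1⟩ := exists_nat_gt ((C + D) / c)
  set K : ℕ := max k0 (K1 + 1) with hK
  have hKk0 : k0 ≤ K := le_max_left _ _
  have hKK1 : K1 + 1 ≤ K := le_max_right _ _
  refine ⟨K, hKk0, ?_⟩
  rw [Fintype.linearIndependent_iff]
  intro g hg
  by_contra hne
  push Not at hne
  obtain ⟨i1, hi1⟩ := hne
  obtain ⟨i, -, hi⟩ := Finset.exists_max_image (Finset.univ : Finset (Fin n))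
    (fun i => |(g i : ℝ)|) ⟨i1, Finset.mem_univ _⟩
  have hgi : 0 < |(g i : ℝ)| := by
    have := hi i1 (Finset.mem_univ _)
    have h3 : 0 < |(g i1 : ℝ)| := by
      rw [abs_pos]
      exact_mod_cast hi1
    linarith
  have h4 : ∑ l, (g l : ℝ) * B (Q (K + i)) (Q (K + l)) = 0 := by
    have := congrArg (B (Q (K + i))) hg
    rw [map_sum, map_zero] at this
    rw [← this]
    apply Finset.sum_congr rfl
    intro l _
    rw [map_zsmul, zsmul_eq_mul]
  rw [← Finset.add_sum_erase _ _ (Finset.mem_univ i)] at h4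
  have h5 : |∑ l ∈ Finset.univ.erase i, (g l : ℝ) * B (Q (K + i)) (Q (K + l))| ≤
      |(g i : ℝ)| * D := by
    refine (Finset.abs_sum_le_sum_abs _ _).trans ?_
    have h6 : ∀ l ∈ Finset.univ.erase i, |(g l : ℝ) * B (Q (K + i)) (Q (K + l))| ≤
        |(g i : ℝ)| * (C * (n : ℝ) ^ 2 + C) := by
      intro l hl
      have hli : l ≠ i := (Finset.mem_erase.mp hl).1
      rw [abs_mul]
      have h7 := h2 (K + i) (by omega) (K + l) (by omega)
        (fun h => hli (Fin.ext (by omega)))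
      have h8 : (((K + (i : ℕ) : ℕ) : ℝ) - ((K + (l : ℕ) : ℕ) : ℝ)) ^ 2 ≤ (n : ℝ) ^ 2 := by
        push_cast
        have hi' : ((i : ℕ) : ℝ) ≤ n := by exact_mod_cast i.2.le
        have hl' : ((l : ℕ) : ℝ) ≤ n := by exact_mod_cast l.2.le
        have hi0 : (0 : ℝ) ≤ ((i : ℕ) : ℝ) := by positivity
        have hl0 : (0 : ℝ) ≤ ((l : ℕ) : ℝ) := by positivity
        apply sq_le_sq'
        · linarith
        · linarith
      apply mul_le_mul (hi l (Finset.mem_univ _)) _ (abs_nonneg _) hgi.le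
      exact h7.trans (by nlinarith)
    refine (Finset.sum_le_sum h6).trans ?_
    rw [Finset.sum_const, nsmul_eq_mul, hD]
    have h9 : ((Finset.univ.erase i).card : ℝ) ≤ n := by
      have : (Finset.univ.erase i).card ≤ n :=
        (Finset.card_le_card (Finset.erase_subset _ _)).trans (by simp)
      exact_mod_cast this
    have h10 : 0 ≤ |(g i : ℝ)| * (C * (n : ℝ) ^ 2 + C) := by positivity
    calc ((Finset.univ.erase i).card : ℝ) * (|(g i : ℝ)| * (C * (n : ℝ) ^ 2 + C))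
        ≤ n * (|(g i : ℝ)| * (C * (n : ℝ) ^ 2 + C)) := mul_le_mul_of_nonneg_right h9 h10
      _ = |(g i : ℝ)| * (n * (C * (n : ℝ) ^ 2 + C)) := by ring
  have h11 : |(g i : ℝ) * B (Q (K + i)) (Q (K + i))| ≤ |(g i : ℝ)| * D := by
    have : (g i : ℝ) * B (Q (K + i)) (Q (K + i)) =
        -∑ l ∈ Finset.univ.erase i, (g l : ℝ) * B (Q (K + i)) (Q (K + l)) := by linarith
    rw [this, abs_neg]
    exact h5
  rw [abs_mul] at h11
  have h12 := le_of_mul_le_mul_left h11 hgi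
  have h13 := (le_abs_self _).trans h12
  have h14 := h1 (K + i) (by omega)
  have h15 : C + D < c * ((K + (i : ℕ) : ℕ) : ℝ) ^ 2 := by
    have h16 : (K1 : ℝ) + 1 ≤ ((K + (i : ℕ) : ℕ) : ℝ) := by
      exact_mod_cast (by omega : K1 + 1 ≤ K + (i : ℕ))
    have h17 : (0 : ℝ) ≤ K1 := by positivity
    rw [div_lt_iff₀ hc] at hK1
    have h18 : (K1 : ℝ) ≤ ((K + (i : ℕ) : ℕ) : ℝ) ^ 2 := by nlinarith
    nlinarith
  linarith

end Pool.Agent.T9h40.K3
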