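import Pool.Agent.T9h40.Emb

/-!
The coordinate `x` of a torsion point has bounded height, over a number field.
-/

set_option autoImplicit false

open WeierstrassCurve Height

namespace Pool.Agent.T9h40.K3

open Pool.Agent.H437R2.Man.MW

section

variable {K : Type} [Field K]

/-- numerator of `x(2P)`. -/
def dnum (e1 e2 e3 x : K) : K :=
  x ^ 4 - 2 * (e1 * e2 + e1 * e3 + e2 * e3) * x ^ 2 - 8 * (e1 * e2 * e3) * x
          - (4 * (e1 + e2 + e3) * (e1 * e2 * e3) - (e1 * e2 + e1 * e3 + e2 * e3) ^ 2)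

/-- denominator of `x(2P)`. -/
def dden (e1 e2 e3 x : K) : K := 4 * ((x + e1) * (x + e2) * (x + e3))

variable [NumberField K]

lemma dbl_height {e1 e2 e3 : K} (h12 : e1 ≠ e2) (h13 : e1 ≠ e3) (h23 : e2 ≠ e3) :
    ∃ C : ℝ, 0 ≤ C ∧ ∀ x : K, dden e1 e2 e3 x ≠ 0 →
      4 * logHeight₁ x - C ≤ logHeight₁ (dnum e1 e2 e3 x / dden e1 e2 e3 x) := by
  classical
  have := crv_ell h12 h13 h23
  obtain ⟨C1, hC1⟩ := abs_logHeight_sym2_sub_le K
  obtain ⟨C2, hC2⟩ := WeierstrassCurve.abs_logHeight_addSubMap_sub_two_mul_logHeight_le (crv e1 e2 e3)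
  refine ⟨max 0 (C2 + 2 * C1), le_max_left _ _, fun x hx => ?_⟩
  have hne : (![x, 1] : Fin 2 → K) ≠ 0 := by
    intro h
    have := congrFun h 1
    simp at this
  have a1 := hC1 hne hne
  have a2 := hC2 ![x * x, x * 1 + 1 * x, 1 * 1]
  generalize hL : logHeight ![x * x, x * 1 + 1 * x, 1 * 1] = L at a1 a2
  rw [eval_addSub] at a2
  have h3 : ![(x * x) ^ 2 - 2 * (e1 * e2 + e1 * e3 + e2 * e3) * (x * x) * (1 * 1) -
        4 * (e1 * e2 * e3) * (x * 1 + 1 * x) * (1 * 1) -
      (4 * (e1 + e2 + e3) * (e1 * e2 * e3) - (e1 * e2 + e1 * e3 + e2 * e3) ^ 2) * (1 * 1) ^ 2,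
      2 * (x * 1 + 1 * x) * (x * x) + 4 * (e1 + e2 + e3) * (x * x) * (1 * 1) +
          2 * (e1 * e2 + e1 * e3 + e2 * e3) * (x * 1 + 1 * x) * (1 * 1) +
        4 * (e1 * e2 * e3) * (1 * 1) ^ 2,
      (x * 1 + 1 * x) ^ 2 - 4 * (x * x) * (1 * 1)] = ![dnum e1 e2 e3 x, dden e1 e2 e3 x, 0] := by
    unfold dnum dden
    ext i
    fin_cases i <;> simp <;> ring
  rw [h3] at a2
  have h4 : logHeight ![dnum e1 e2 e3 x, dden e1 e2 e3 x, 0] =
      logHeight₁ (dnum e1 e2 e3 x / dden e1 e2 e3 x) := by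
    rw [logHeight₁_div_eq_logHeight]
    have h5 : (![dnum e1 e2 e3 x, dden e1 e2 e3 x, 0] : Fin 3 → K) =
        ![0, dnum e1 e2 e3 x, dden e1 e2 e3 x] ∘ (finRotate 3) := by
      ext i
      fin_cases i <;> rfl
    rw [h5, logHeight_comp_equiv, logHeight_cons_zero]
  rw [h4] at a2
  rw [← logHeight₁_eq_logHeight] at a1
  rw [abs_le] at a1 a2
  have := le_max_right 0 (C2 + 2 * C1)
  linarith [a1.1, a1.2, a2.1, a2.2]

end

variable {K F : Type} [Field K] [Field F] [NumberField K] [CharZero F] [DecidableEq F]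

/-- the height of `x` for a point over `F` with `x` in `K`. -/
noncomputable def hx (j : K →+* F) {c0 c1 c2 : F} (P : Pt c0 c1 c2) : ℝ :=
  open Classical in
  if h : ∃ x : K, ∃ (y : F) (g : (crv c0 c1 c2).toAffine.Nonsingular (j x) y),
    P = .some (j x) y g then logHeight₁ h.choose else 0

omit [CharZero F] [DecidableEq F] in
lemma hx_some (j : K →+* F) {c0 c1 c2 : F} {x : K} {y : F}
    (g : (crv c0 c1 c2).toAffine.Nonsingular (j x) y) :
    hx j (.some (j x) y g : Pt c0 c1 c2) = logHeight₁ x := by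
  have h : ∃ x' : K, ∃ (y' : F) (g' : (crv c0 c1 c2).toAffine.Nonsingular (j x') y'),
    (.some (j x) y g : Pt c0 c1 c2) = .some (j x') y' g' := ⟨x, y, g, rfl⟩
  rw [hx, dif_pos h]
  obtain ⟨y', g', h2⟩ := h.choose_spec
  generalize h.choose = x' at g' h2
  have h3 := (Affine.Point.some.injEq _ _ _ _ _ _).mp h2
  rw [j.injective h3.1]

omit [NumberField K] in
lemma dbl_pt (j : K →+* F) {b0 b1 b2 : K} {c0 c1 c2 : F} (h0 : j b0 = c0) (h1 : j b1 = c1)
    (h2 : j b2 = c2) {x : K} {y : F}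
    (g : (crv c0 c1 c2).toAffine.Nonsingular (j x) y) (hd : dden b0 b1 b2 x ≠ 0) :
    ∃ (y' : F) (g' : (crv c0 c1 c2).toAffine.Nonsingular (j (dnum b0 b1 b2 x / dden b0 b1 b2 x)) y'),
      (.some (j x) y g + .some (j x) y g : Pt c0 c1 c2) =
        .some (j (dnum b0 b1 b2 x / dden b0 b1 b2 x)) y' g' := by
  subst h0 h1 h2
  have hyy := crv_eqn.mp g.1
  have hden : j (dden b0 b1 b2 x) = 4 * y ^ 2 := by
    have h4 : j 4 = 4 := map_ofNat j 4
    rw [hyy]
    unfold dden
    simp only [map_mul, map_add, h4]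
  have hy : y ≠ 0 := by
    intro h0
    apply hd
    apply j.injective
    rw [hden, h0, map_zero]
    ring
  have hxr := xRep_double g hy
  have hX : ∀ R : Pt (j b0) (j b1) (j b2), R.xRep =
      ![j (dnum b0 b1 b2 x / dden b0 b1 b2 x), 1] →
      ∃ (y' : F) (g' : (crv (j b0) (j b1) (j b2)).toAffine.Nonsingular
        (j (dnum b0 b1 b2 x / dden b0 b1 b2 x)) y'), R = .some _ y' g' := by
    intro R hR
    match R, hR with
    | .zero, hR =>
      have h3 := congrFun hR 1
      have h4 : (Affine.Point.zero : Pt (j b0) (j b1) (j b2)).xRep = ![1, 0] :=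
        Affine.Point.xRep_zero
      rw [h4] at h3
      simp at h3
    | .some x' y' g', hR =>
      rw [Affine.Point.xRep_some] at hR
      have h3 := congrFun hR 0
      simp only [Matrix.cons_val_zero] at h3
      subst h3
      exact ⟨y', g', rfl⟩
  apply hX
  rw [hxr]
  congr 1
  rw [map_div₀, hden]
  congr 1
  have k2 : j 2 = 2 := map_ofNat j 2
  have k4 : j 4 = 4 := map_ofNat j 4
  have k8 : j 8 = 8 := map_ofNat j 8
  unfold dnum
  simp only [map_sub, map_mul, map_add, map_pow, k2, k4, k8]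

/-- torsion points have bounded height. -/
theorem tors_bound (j : K →+* F) {b0 b1 b2 : K} {c0 c1 c2 : F} (h0 : j b0 = c0) (h1 : j b1 = c1)
    (h2 : j b2 = c2) (h01 : b0 ≠ b1) (h02 : b0 ≠ b2) (h12 : b1 ≠ b2) :
    ∃ C : ℝ, ∀ (x : K) (y : F) (g : (crv c0 c1 c2).toAffine.Nonsingular (j x) y),
      (∃ N : ℕ, N ≠ 0 ∧ N • (.some (j x) y g : Pt c0 c1 c2) = 0) → logHeight₁ x ≤ C := by
  obtain ⟨C, hC0, hC⟩ := dbl_height h01 h02 h12
  set M : ℝ := C + logHeight₁ (-b0) + logHeight₁ (-b1) + logHeight₁ (-b2) with hM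
  have z0 := zero_le_logHeight₁ (-b0)
  have z1 := zero_le_logHeight₁ (-b1)
  have z2 := zero_le_logHeight₁ (-b2)
  refine ⟨M, fun x y g hN => ?_⟩
  by_contra hlt
  push Not at hlt
  set P : Pt c0 c1 c2 := .some (j x) y g with hP
  set ε : ℝ := logHeight₁ x - M with hε
  have hε0 : 0 < ε := by linarith
  have hM0 : 0 ≤ M := by linarith
  have key : ∀ k : ℕ, ∃ (x' : K) (y' : F) (g' : (crv c0 c1 c2).toAffine.Nonsingular (j x') y'),
      (2 ^ k : ℕ) • P = .some (j x') y' g' ∧ M + (k + 1) * ε ≤ logHeight₁ x' := by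
    intro k
    induction k with
    | zero =>
      refine ⟨x, y, g, by rw [pow_zero, one_smul], ?_⟩
      push_cast
      linarith
    | succ k ih =>
      obtain ⟨x', y', g', e1, e2⟩ := ih
      have hk : (0 : ℝ) ≤ k := by positivity
      have hkε : 0 ≤ k * ε := by positivity
      have hMx' : M < logHeight₁ x' := by nlinarith
      have hd : dden b0 b1 b2 x' ≠ 0 := by
        intro hd
        unfold dden at hd
        have h4 : (4 : K) ≠ 0 := by norm_num
        rcases mul_eq_zero.mp hd with h5 | h5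
        · exact h4 h5
        rcases mul_eq_zero.mp h5 with h6 | h6
        · rcases mul_eq_zero.mp h6 with h7 | h7
          · rw [eq_neg_of_add_eq_zero_left h7] at hMx'
            linarith
          · rw [eq_neg_of_add_eq_zero_left h7] at hMx'
            linarith
        · rw [eq_neg_of_add_eq_zero_left h6] at hMx'
          linarith
      obtain ⟨y'', g'', e3⟩ := dbl_pt j h0 h1 h2 g' hd
      refine ⟨_, y'', g'', by rw [pow_succ, mul_comm, mul_smul, e1, two_smul, e3], ?_⟩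
      have h8 := hC x' hd
      push_cast
      have h9 : C ≤ M := by linarith
      have h10 : M + (k + 1) * ε = M + k * ε + ε := by ring
      have h11 : M + (k + 1 + 1) * ε = M + k * ε + 2 * ε := by ring
      rw [h10] at e2
      rw [h11]
      linarith
  obtain ⟨N, hN0, hN⟩ := hN
  have hfin : (Set.range fun n : ℕ => n • P).Finite := by
    apply Set.Finite.subset ((Finset.range N).image fun n => n • P).finite_toSet
    rintro _ ⟨n, rfl⟩
    simp only [Finset.coe_image, Set.mem_image, Finset.mem_coe, Finset.mem_range]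
    refine ⟨n % N, Nat.mod_lt _ (Nat.pos_of_ne_zero hN0), ?_⟩
    conv_rhs => rw [← Nat.mod_add_div n N]
    rw [add_smul, mul_comm, mul_smul, hN, smul_zero, add_zero]
  obtain ⟨B, hB⟩ := (hfin.image (hx j)).bddAbove
  obtain ⟨k, hk⟩ := exists_nat_gt (B / ε)
  obtain ⟨x', y', g', e1, e2⟩ := key k
  have h3 : hx j ((2 ^ k : ℕ) • P) ≤ B := hB ⟨_, ⟨2 ^ k, rfl⟩, rfl⟩
  rw [e1, hx_some] at h3
  rw [div_lt_iff₀ hε0] at hk
  nlinarith

end Pool.Agent.T9h40.K3
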