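import Pool.Agent.T9h40.Gap
import Pool.Agent.T9h40.Tors
import Pool.Agent.T9h40.Ind
import Pool.Agent.H437R2.Man.MWCan

/-!
The points `Q_k` over the multiples of a point are independent.
-/

set_option autoImplicit false

open WeierstrassCurve Height

namespace Pool.Agent.T9h40.K3

open Pool.Agent.H437R2.Man.MW

section heights

variable {K : Type} [Field K] [NumberField K] [DecidableEq K]

/-- the canonical height pairing. -/
lemma pairing {a0 a1 a2 : K} (h01 : a0 ≠ a1) (h02 : a0 ≠ a2) (h12 : a1 ≠ a2) :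
    ∃ (B : Pt a0 a1 a2 →+ Pt a0 a1 a2 →+ ℝ) (C : ℝ), 0 ≤ C ∧ (∀ P, |B P P - ht P| ≤ C) ∧
      (∀ P, 0 ≤ B P P) ∧ ∀ P Q, B P Q = B Q P := by
  obtain ⟨C, -, hC⟩ := par_law h01 h02 h12
  obtain ⟨q, C', h1, h2, h3⟩ := canon (fun P : Pt a0 a1 a2 => ht P) C ht_nonneg hC
  obtain ⟨B, hB1, hB2⟩ := polar q h3
  refine ⟨B, C', (abs_nonneg _).trans (h1 0), fun P => ?_, fun P => ?_, hB2⟩
  · rw [hB1]
    exact h1 P
  · rw [hB1]
    exact h2 P

lemma pairing_smul {G : Type} [AddCommGroup G] (B : G →+ G →+ ℝ) (P : G) (k : ℕ) :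
    B (k • P) (k • P) = (k : ℝ) ^ 2 * B P P := by
  rw [map_nsmul, map_nsmul, AddMonoidHom.nsmul_apply, nsmul_eq_mul, nsmul_eq_mul]
  ring

lemma smul_inj {G : Type} [AddCommGroup G] {P : G} (hP : ∀ N : ℕ, N ≠ 0 → N • P ≠ 0) :
    Function.Injective (fun k : ℕ => k • P) := by
  intro k l hkl
  simp only at hkl
  rcases lt_trichotomy k l with h | h | h
  · exfalso
    apply hP (l - k) (by omega)
    have : l • P = (l - k) • P + k • P := by
      rw [← add_smul]
      congr 1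
      omega
    rw [← hkl] at this
    exact (left_eq_add.mp (by rw [add_comm] at this; exact this))
  · exact h
  · exfalso
    apply hP (k - l) (by omega)
    have : k • P = (k - l) • P + l • P := by
      rw [← add_smul]
      congr 1
      omega
    rw [hkl] at this
    exact (left_eq_add.mp (by rw [add_comm] at this; exact this))

lemma pairing_pos {a0 a1 a2 : K} {B : Pt a0 a1 a2 →+ Pt a0 a1 a2 →+ ℝ} {C : ℝ}
    (hC : ∀ P, |B P P - ht P| ≤ C) (h0 : ∀ P, 0 ≤ B P P) {P : Pt a0 a1 a2}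
    (hP : ∀ N : ℕ, N ≠ 0 → N • P ≠ 0) : 0 < B P P := by
  rcases (h0 P).lt_or_eq with h | h
  · exact h
  exfalso
  have h1 : ∀ k : ℕ, ht (k • P) ≤ C := by
    intro k
    have := hC (k • P)
    rw [pairing_smul, ← h, mul_zero, zero_sub, abs_neg] at this
    exact (le_abs_self _).trans this
  have h2 : (Set.range fun k : ℕ => k • P).Finite :=
    (finite_ht (e1 := a0) (e2 := a1) (e3 := a2) C).subset (by
      rintro _ ⟨k, rfl⟩
      exact h1 k)
  exact Set.infinite_range_of_injective (smul_inj hP) h2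

lemma mob_ht (α β γ : K) (hβ : β ≠ 0) : ∃ C : ℝ, ∀ x x' : K, (x - γ) * (x' - α) = β →
    logHeight₁ x ≤ C + logHeight₁ x' := by
  obtain ⟨C1, hC1⟩ := logHeight₁_affine γ β
  obtain ⟨C2, hC2⟩ := logHeight₁_affine (-α) (1 : K)
  refine ⟨C1 + C2, fun x x' h => ?_⟩
  have h1 : x' - α ≠ 0 := fun h0 => hβ (by rw [← h, h0, mul_zero])
  have h2 : x = β * (x' - α)⁻¹ + γ := by
    rw [← h]
    field_simp
    ring
  have h3 := hC1 (x' - α)⁻¹
  rw [logHeight₁_inv] at h3
  have h4 := hC2 x'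
  rw [one_mul, ← sub_eq_add_neg] at h4
  rw [h2]
  linarith

/-- the points `Q_k` are eventually independent. -/
theorem core_ht {a0 a1 a2 b0 b1 b2 α β γ δ : K} (hm : Mob a0 a1 a2 b0 b1 b2 α β γ)
    (hδ : δ ^ 2 * ((a0 + γ) * (a1 + γ) * (a2 + γ)) = β ^ 3)
    (ha01 : a0 ≠ a1) (ha02 : a0 ≠ a2) (ha12 : a1 ≠ a2)
    (hb01 : b0 ≠ b1) (hb02 : b0 ≠ b2) (hb12 : b1 ≠ b2)
    {P : Pt a0 a1 a2} (hP : ∀ N : ℕ, N ≠ 0 → N • P ≠ 0) (Q : ℕ → Pt b0 b1 b2) (k1 : ℕ)
    (hQ : ∀ k ≥ k1, ∃ (x y x' y' : K) (h : (crv a0 a1 a2).toAffine.Nonsingular x y)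
      (h' : (crv b0 b1 b2).toAffine.Nonsingular x' y'), k • P = .some x y h ∧ Q k = .some x' y' h' ∧
      (x - γ) * (x' - α) = β) (n : ℕ) :
    ∃ k ≥ k1, LinearIndependent ℤ (fun i : Fin n => Q (k + i)) := by
  obtain ⟨B1, C1, hC10, h1a, h1b, h1c⟩ := pairing ha01 ha02 ha12
  obtain ⟨B2, C2, hC20, h2a, h2b, h2c⟩ := pairing hb01 hb02 hb12
  obtain ⟨C3, hC3⟩ := mob_ht α β γ hm.hβ
  obtain ⟨C4, hC4⟩ := gap hm hδ
  have hq := pairing_pos h1a h1b hP
  set q : ℝ := B1 P P with hqdef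
  have hinj := smul_inj hP
  -- lower bound for the heights of the points
  have low : ∀ k ≥ k1, q * (k : ℝ) ^ 2 - (C1 + C2 + |C3|) ≤ B2 (Q k) (Q k) := by
    intro k hk
    obtain ⟨x, y, x', y', h, h', e1, e2, e3⟩ := hQ k hk
    have g1 := h1a (k • P)
    have g2 := h2a (Q k)
    have g3 := hC3 x x' e3
    rw [pairing_smul, e1, ht, Affine.Point.xRep_some, ← logHeight₁_eq_logHeight] at g1
    rw [e2, ht, Affine.Point.xRep_some, ← logHeight₁_eq_logHeight, ← e2] at g2
    rw [abs_le] at g1 g2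
    have := le_abs_self C3
    nlinarith [g1.1, g1.2, g2.1, g2.2]
  -- the upper bound, for both signs
  have up : ∀ k ≥ max k1 1, ∀ l ≥ max k1 1, k ≠ l →
      |2 * B2 (Q k) (Q l)| ≤ q * ((k : ℝ) - l) ^ 2 + (|C4| + 9 * C1 + 3 * C2 + 2 * |C3|) := by
    intro k hk l hl hkl
    have hk1 : k1 ≤ k := (le_max_left _ _).trans hk
    have hl1 : k1 ≤ l := (le_max_left _ _).trans hl
    have hk0 : 1 ≤ k := (le_max_right _ _).trans hk
    have hl0 : 1 ≤ l := (le_max_right _ _).trans hl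
    obtain ⟨x, y, x', y', h, h', e1, e2, e3⟩ := hQ k hk1
    obtain ⟨u, v, u', v', g, g', f1, f2, f3⟩ := hQ l hl1
    have hy0 : ∀ (m : ℕ) (x y : K) (h : (crv a0 a1 a2).toAffine.Nonsingular x y), 1 ≤ m →
        m • P = .some x y h → y ≠ 0 := by
      intro m x y h hm hmP hy
      subst hy
      apply hP (2 * m) (by omega)
      rw [mul_smul, two_smul, hmP]
      apply Affine.Point.add_self_of_Y_eq
      simp [Affine.negY, crv]
    have hy : y ≠ 0 := hy0 k x y h hk0 e1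
    have hv : v ≠ 0 := hy0 l u v g hl0 f1
    have hxu : x ≠ u := by
      intro hxu
      have hr : (k • P).xRep = (l • P).xRep := by
        rw [e1, f1, Affine.Point.xRep_some, Affine.Point.xRep_some, hxu]
      rcases Affine.Point.eq_or_eq_neg_of_xRep_eq_xRep hr with h3 | h3
      · exact hkl (hinj h3)
      · apply hP (k + l) (by omega)
        rw [add_smul, h3, neg_add_cancel]
    have g'' : (crv b0 b1 b2).toAffine.Nonsingular u' (-v') := by
      apply crv_nonsing hb01 hb02 hb12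
      rw [← crv_eqn.mp g'.1]
      ring
    have gp := hC4 x y u v x' y' u' v' h g h' g' e3 f3 hxu hy hv
    have gm := hC4 x y u v x' y' u' (-v') h g h' g'' e3 f3 hxu hy hv
    rw [← neg_mk g' g''] at gm
    rw [← e1, ← f1, ← e2, ← f2] at gp gm
    have s1 := h1a (k • P + l • P)
    have s2 := h1a (k • P)
    have s3 := h1a (l • P)
    have s4 := h2a (Q k + Q l)
    have s5 := h2a (Q k + -Q l)
    rw [← add_smul, pairing_smul, add_smul] at s1
    rw [pairing_smul] at s2 s3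
    rw [map_add, map_add, AddMonoidHom.add_apply, AddMonoidHom.add_apply, h2c (Q l) (Q k)] at s4
    simp only [map_add, map_neg, AddMonoidHom.add_apply, AddMonoidHom.neg_apply] at s5
    rw [h2c (Q l) (Q k)] at s5
    have t1 := low k hk1
    have t2 := low l hl1
    push_cast at s1
    rw [abs_le] at s1 s2 s3 s4 s5 ⊢
    have c4 := le_abs_self C4
    constructor
    · nlinarith [s1.1, s2.2, s3.2, s5.1, s5.2]
    · nlinarith [s1.1, s2.2, s3.2, s4.1, s4.2]
  set D : ℝ := q + (|C4| + 9 * C1 + 3 * C2 + 2 * |C3|) with hD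
  have hD0 : 0 ≤ D := by positivity
  obtain ⟨k, hk, hli⟩ := indep_of_gap B2 Q (max k1 1) q D hq hD0
    (fun k hk => by
      have := low k ((le_max_left _ _).trans hk)
      have h3 := abs_nonneg C3
      have h4 := abs_nonneg C4
      linarith)
    (fun k hk l hl hkl => by
      have h5 := up k hk l hl hkl
      rw [abs_mul, abs_of_pos (by norm_num : (0 : ℝ) < 2)] at h5
      have h3 := abs_nonneg C3
      have h4 := abs_nonneg C4
      have h6 : 0 ≤ ((k : ℝ) - l) ^ 2 := sq_nonneg _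
      have h7 : 0 ≤ |B2 (Q k) (Q l)| := abs_nonneg _
      have h8 : q * ((k : ℝ) - l) ^ 2 ≤ D * ((k : ℝ) - l) ^ 2 :=
        mul_le_mul_of_nonneg_right (by linarith) h6
      linarith) n
  exact ⟨k, (le_max_left _ _).trans hk, hli⟩

end heights

end Pool.Agent.T9h40.K3
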