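import Pool.Agent.T9h40.Core

/-!
Infinitely many independent points in the annihilator of a point, over a number field which is large
enough.
-/

set_option autoImplicit false

open WeierstrassCurve Height

namespace Pool.Agent.T9h40.K3

open Pool.Agent.H437R2.Man.MW

lemma exists_big_ht {K : Type} [Field K] [NumberField K] [DecidableEq K] {a0 a1 a2 : K}
    (h01 : a0 ≠ a1) (h02 : a0 ≠ a2) (h12 : a1 ≠ a2)
    {P : Pt a0 a1 a2} (hP : ∀ N : ℕ, N ≠ 0 → N • P ≠ 0) (M : ℝ) :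
    ∃ k0 : ℕ, ∀ k ≥ k0, M < ht (k • P) := by
  obtain ⟨B1, C1, hC10, h1a, h1b, h1c⟩ := pairing h01 h02 h12
  have hq := pairing_pos h1a h1b hP
  obtain ⟨k0, hk0⟩ := exists_nat_gt ((|M| + C1) / B1 P P)
  refine ⟨k0 + 1, fun k hk => ?_⟩
  have h1 := h1a (k • P)
  rw [pairing_smul, abs_le] at h1
  rw [div_lt_iff₀ hq] at hk0
  have h2 : (k0 : ℝ) + 1 ≤ k := by exact_mod_cast hk
  have h3 : (0 : ℝ) ≤ k0 := by positivity
  have h4 : (k0 : ℝ) ≤ (k : ℝ) ^ 2 := by nlinarith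
  have h5 := le_abs_self M
  nlinarith [h1.1, h1.2]

theorem core {K F A : Type} [Field K] [NumberField K] [DecidableEq K] [Field F] [CharZero F]
    [IsAlgClosed F] [DecidableEq F] [AddCommGroup A] (j : K →+* F)
    (hgal : ∀ y : F, y ^ 2 ∈ j.range → y ∉ j.range →
      ∃ σ : F →+* F, (∀ x, σ (j x) = j x) ∧ σ y = -y)
    {a0 a1 a2 b0 b1 b2 α β γ δ : K} (hm : Mob a0 a1 a2 b0 b1 b2 α β γ)
    (hδ : δ ^ 2 * ((a0 + γ) * (a1 + γ) * (a2 + γ)) = β ^ 3)
    (ha01 : a0 ≠ a1) (ha02 : a0 ≠ a2) (ha12 : a1 ≠ a2)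
    (hb01 : b0 ≠ b1) (hb02 : b0 ≠ b2) (hb12 : b1 ≠ b2)
    {c0 c1 c2 d0 d1 d2 : F} (hc0 : j a0 = c0) (hc1 : j a1 = c1) (hc2 : j a2 = c2)
    (hd0 : j b0 = d0) (hd1 : j b1 = d1) (hd2 : j b2 = d2)
    (φ : Pt c0 c1 c2 →+ Pt d0 d1 d2 →+ A)
    (hφ : ∀ (x y x' y' : F) (h : (crv c0 c1 c2).toAffine.Nonsingular x y)
      (h' : (crv d0 d1 d2).toAffine.Nonsingular x' y'), (x - j γ) * (x' - j α) = j β →
      φ (.some x y h) (.some x' y' h') = 0)
    {P : Pt a0 a1 a2} (hP : ∀ N : ℕ, N ≠ 0 → N • P ≠ 0)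
    (hH : ∀ Q : Pt d0 d1 d2, (∃ N : ℕ, N ≠ 0 ∧ N • φ (emb j hc0 hc1 hc2 P) Q = 0) →
      ∃ (N : ℕ) (R : Pt b0 b1 b2), N ≠ 0 ∧ N • Q = emb j hd0 hd1 hd2 R) (n : ℕ) :
    ∃ v : Fin n → Pt b0 b1 b2, LinearIndependent ℤ v ∧
      ∀ i, ∃ N : ℕ, N ≠ 0 ∧ N • φ (emb j hc0 hc1 hc2 P) (emb j hd0 hd1 hd2 (v i)) = 0 := by
  obtain ⟨C3, hC3⟩ := mob_ht α β γ hm.hβ
  obtain ⟨CT, hCT⟩ := tors_bound j hd0 hd1 hd2 hb01 hb02 hb12
  obtain ⟨k0, hk0⟩ := exists_big_ht ha01 ha02 ha12 hP (max (logHeight₁ γ) (C3 + CT))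
  have step : ∀ k ≥ max k0 1, ∃ R : Pt b0 b1 b2, ∃ (x y x' y' : K)
      (h : (crv a0 a1 a2).toAffine.Nonsingular x y)
      (h' : (crv b0 b1 b2).toAffine.Nonsingular x' y'), k • P = .some x y h ∧ R = .some x' y' h' ∧
      (x - γ) * (x' - α) = β := by
    intro k hk
    have hk0' : k0 ≤ k := (le_max_left _ _).trans hk
    have hk1 : 1 ≤ k := (le_max_right _ _).trans hk
    have hht := hk0 k hk0'
    have hkP : k • P ≠ 0 := hP k (by omega)
    generalize hR : k • P = R at hht hkP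
    match R, hR, hht, hkP with
    | .zero, _, _, hkP => exact absurd rfl hkP
    | .some x y h, hR, hht, _ =>
      rw [ht, Affine.Point.xRep_some, ← logHeight₁_eq_logHeight] at hht
      have hg : logHeight₁ γ < logHeight₁ x := (le_max_left _ _).trans_lt hht
      have hT : C3 + CT < logHeight₁ x := (le_max_right _ _).trans_lt hht
      have hxγ : x - γ ≠ 0 := by
        intro h0
        rw [sub_eq_zero.mp h0] at hg
        exact lt_irrefl _ hg
      set x' : K := α + β / (x - γ) with hx'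
      have hxx' : (x - γ) * (x' - α) = β := by
        rw [hx', add_sub_cancel_left, mul_div_cancel₀ _ hxγ]
      obtain ⟨y', hy'⟩ := IsAlgClosed.exists_pow_nat_eq (j ((x' + b0) * (x' + b1) * (x' + b2)))
        (by norm_num : 0 < 2)
      have hns : (crv d0 d1 d2).toAffine.Nonsingular (j x') y' := by
        apply crv_nonsing
        · rw [← hd0, ← hd1]
          exact fun h => hb01 (j.injective h)
        · rw [← hd0, ← hd2]
          exact fun h => hb02 (j.injective h)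
        · rw [← hd1, ← hd2]
          exact fun h => hb12 (j.injective h)
        · rw [hy', ← hd0, ← hd1, ← hd2]
          simp only [map_mul, map_add]
      have hker : φ (emb j hc0 hc1 hc2 (k • P)) (.some (j x') y' hns) = 0 := by
        rw [hR, emb_some j hc0 hc1 hc2 h ((ns_map j hc0 hc1 hc2).mpr h)]
        apply hφ
        rw [← hxx']
        simp only [map_mul, map_sub]
      rw [map_nsmul, map_nsmul, AddMonoidHom.nsmul_apply] at hker
      obtain ⟨N, R', hN, hNR⟩ := hH _ ⟨k, by omega, hker⟩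
      by_cases hyr : y' ∈ j.range
      · obtain ⟨y'', rfl⟩ := hyr
        exact ⟨.some x' y'' ((ns_map j hd0 hd1 hd2).mp hns), x, y, x', y'', h,
          (ns_map j hd0 hd1 hd2).mp hns, rfl, rfl, hxx'⟩
      · exfalso
        obtain ⟨σ, hσ, hσy⟩ := hgal y' ⟨_, hy'.symm⟩ hyr
        have hs0 : σ d0 = d0 := by rw [← hd0, hσ]
        have hs1 : σ d1 = d1 := by rw [← hd1, hσ]
        have hs2 : σ d2 = d2 := by rw [← hd2, hσ]
        set τ := emb σ hs0 hs1 hs2 with hτ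
        have hneg : (crv d0 d1 d2).toAffine.Nonsingular (j x') (-y') := by
          have := (ns_map σ hs0 hs1 hs2).mpr hns
          rwa [hσ, hσy] at this
        have h1 : τ (.some (j x') y' hns) = -(.some (j x') y' hns) := by
          rw [neg_mk hns hneg, hτ, emb_some σ hs0 hs1 hs2 hns ((ns_map σ hs0 hs1 hs2).mpr hns)]
          exact pt_some_congr _ _ (hσ x') hσy
        have h2 : τ (emb j hd0 hd1 hd2 R') = emb j hd0 hd1 hd2 R' := by
          match R' with
          | .zero =>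
            change τ (emb j hd0 hd1 hd2 0) = emb j hd0 hd1 hd2 0
            rw [map_zero, map_zero]
          | .some u v g =>
            rw [emb_some j hd0 hd1 hd2 g ((ns_map j hd0 hd1 hd2).mpr g), hτ,
              emb_some σ hs0 hs1 hs2 _ ((ns_map σ hs0 hs1 hs2).mpr ((ns_map j hd0 hd1 hd2).mpr g))]
            exact pt_some_congr _ _ (hσ u) (hσ v)
        rw [← hNR, map_nsmul, h1, smul_neg] at h2
        have h3 : (2 * N) • (.some (j x') y' hns : Pt d0 d1 d2) = 0 := by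
          rw [mul_smul, two_smul]
          nth_rewrite 1 [← h2]
          rw [neg_add_cancel]
        have h4 := hCT x' y' hns ⟨2 * N, by omega, h3⟩
        have h5 := hC3 x x' hxx'
        linarith
  choose! Q hQ using step
  obtain ⟨k, hk, hli⟩ := core_ht hm hδ ha01 ha02 ha12 hb01 hb02 hb12 hP Q (max k0 1)
    (fun k hk => hQ k hk) n
  refine ⟨_, hli, fun i => ⟨k + i, ?_, ?_⟩⟩
  · have : 1 ≤ k := (le_max_right _ _).trans hk
    omega
  · obtain ⟨x, y, x', y', h, h', e1, e2, e3⟩ := hQ (k + i) (hk.trans (Nat.le_add_right _ _))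
    rw [← AddMonoidHom.nsmul_apply, ← map_nsmul, ← map_nsmul, e1]
    beta_reduce
    rw [e2, emb_some j hc0 hc1 hc2 h ((ns_map j hc0 hc1 hc2).mpr h),
      emb_some j hd0 hd1 hd2 h' ((ns_map j hd0 hd1 hd2).mpr h')]
    apply hφ
    rw [← e3]
    simp only [map_mul, map_sub]

end Pool.Agent.T9h40.K3
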