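import Pool.Agent.H437R2.Man.MWPar

/-!
Functoriality of the group of points of `y² = (x + b₀)(x + b₁)(x + b₂)` in the field.
-/

set_option autoImplicit false

open WeierstrassCurve

namespace Pool.Agent.T9h40.K3

open Pool.Agent.H437R2.Man.MW

variable {K F : Type} [Field K] [Field F]

lemma crv_map (j : K →+* F) (b0 b1 b2 : K) :
    (crv b0 b1 b2).map j = crv (j b0) (j b1) (j b2) := by
  ext <;> simp [crv]

lemma ns_map (j : K →+* F) {b0 b1 b2 x y : K} {c0 c1 c2 : F} (h0 : j b0 = c0) (h1 : j b1 = c1)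
    (h2 : j b2 = c2) :
    (crv c0 c1 c2).toAffine.Nonsingular (j x) (j y) ↔ (crv b0 b1 b2).toAffine.Nonsingular x y := by
  subst h0 h1 h2
  rw [← crv_map]
  exact (crv b0 b1 b2).toAffine.map_nonsingular j.injective x y

/-- the map on points. -/
def embFun (j : K →+* F) {b0 b1 b2 : K} {c0 c1 c2 : F} (h0 : j b0 = c0) (h1 : j b1 = c1)
    (h2 : j b2 = c2) : Pt b0 b1 b2 → Pt c0 c1 c2
  | .zero => .zero
  | .some x y h => .some (j x) (j y) ((ns_map j h0 h1 h2).mpr h)

variable [DecidableEq K] [DecidableEq F]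

lemma embFun_add (j : K →+* F) {b0 b1 b2 : K} {c0 c1 c2 : F} (h0 : j b0 = c0) (h1 : j b1 = c1)
    (h2 : j b2 = c2) (P Q : Pt b0 b1 b2) :
    embFun j h0 h1 h2 (P + Q) = embFun j h0 h1 h2 P + embFun j h0 h1 h2 Q := by
  subst h0 h1 h2
  have hm := crv_map j b0 b1 b2
  match P, Q with
  | .zero, Q =>
    change embFun j rfl rfl rfl (0 + Q) = 0 + embFun j rfl rfl rfl Q
    rw [zero_add, zero_add]
  | .some x y h, .zero =>
    change embFun j rfl rfl rfl (Affine.Point.some x y h + 0) = embFun j rfl rfl rfl _ + 0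
    rw [add_zero, add_zero]
  | .some x1 y1 g1, .some x2 y2 g2 =>
    simp only [embFun]
    by_cases hxy : x1 = x2 ∧ y1 = (crv b0 b1 b2).toAffine.negY x2 y2
    · rw [Affine.Point.add_of_Y_eq hxy.1 hxy.2, Affine.Point.add_of_Y_eq (by rw [hxy.1])]
      · rfl
      · rw [← hm, Affine.map_negY, hxy.2]
    · have hxy' : ¬(j x1 = j x2 ∧ j y1 =
          (crv (j b0) (j b1) (j b2)).toAffine.negY (j x2) (j y2)) := by
        rw [← hm, Affine.map_negY]
        rintro ⟨k1, k2⟩
        exact hxy ⟨j.injective k1, j.injective k2⟩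
      rw [Affine.Point.add_some hxy, Affine.Point.add_some hxy']
      simp only [Affine.Point.some.injEq]
      rw [← hm, Affine.map_slope, Affine.map_addX, Affine.map_addY]
      exact ⟨rfl, rfl⟩

/-- the homomorphism on points. -/
def emb (j : K →+* F) {b0 b1 b2 : K} {c0 c1 c2 : F} (h0 : j b0 = c0) (h1 : j b1 = c1)
    (h2 : j b2 = c2) : Pt b0 b1 b2 →+ Pt c0 c1 c2 :=
  AddMonoidHom.mk' (embFun j h0 h1 h2) (embFun_add j h0 h1 h2)

lemma emb_some (j : K →+* F) {b0 b1 b2 : K} {c0 c1 c2 : F} (h0 : j b0 = c0) (h1 : j b1 = c1)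
    (h2 : j b2 = c2) {x y : K} (h : (crv b0 b1 b2).toAffine.Nonsingular x y)
    (h' : (crv c0 c1 c2).toAffine.Nonsingular (j x) (j y)) :
    emb j h0 h1 h2 (.some x y h) = .some (j x) (j y) h' := rfl

lemma emb_injective (j : K →+* F) {b0 b1 b2 : K} {c0 c1 c2 : F} (h0 : j b0 = c0) (h1 : j b1 = c1)
    (h2 : j b2 = c2) : Function.Injective (emb j h0 h1 h2) := by
  rw [injective_iff_map_eq_zero]
  intro P hP
  match P, hP with
  | .zero, _ => rfl
  | .some x y h, hP => exact absurd hP (by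
      change (Affine.Point.some (j x) (j y) _ : Pt c0 c1 c2) ≠ 0
      exact Affine.Point.some_ne_zero _)

omit [DecidableEq K] [DecidableEq F] in
lemma pt_some_congr {b0 b1 b2 x y x' y' : K} (h : (crv b0 b1 b2).toAffine.Nonsingular x y)
    (h' : (crv b0 b1 b2).toAffine.Nonsingular x' y') (hx : x = x') (hy : y = y') :
    (Affine.Point.some x y h : Pt b0 b1 b2) = Affine.Point.some x' y' h' := by
  subst hx hy
  rfl

end Pool.Agent.T9h40.K3
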