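import Pool.Agent.T9h40.Bi

/-!
A height inequality on pairs of points of a curve of genus two which covers two elliptic curves.
-/

set_option autoImplicit false

open Height WeierstrassCurve MvPolynomial

namespace Pool.Agent.T9h40.K3

open Pool.Agent.H437R2.Man.MW

section alg

variable {K : Type} [Field K]

lemma mono_ne_zero (r s : K) : mono r s ≠ 0 := by
  intro h
  have := congrFun h (Sum.inl 0)
  simp [mono] at this

/-- translation of `numr`. -/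
lemma numr_trans (a0 a1 a2 x u w g : K) :
    numr a0 a1 a2 x u w - g * (x - u) ^ 2 = numr (a0 + g) (a1 + g) (a2 + g) (x - g) (u - g) w := by
  unfold numr
  ring

lemma numr_U (A0 A1 A2 r q s t : K) :
    numr A0 A1 A2 (r ^ 2) (q ^ 2) (s * t) =
      NU (A0 + A1 + A2) (A0 * A1 + A0 * A2 + A1 * A2) (A0 * A1 * A2) r s q t := by
  unfold numr NU
  ring

lemma numr_V {A0 A1 A2 r q s t β : K} (h0 : A0 ≠ 0) (h1 : A1 ≠ 0) (h2 : A2 ≠ 0) (hr : r ≠ 0)
    (hq : q ≠ 0) :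
    numr (β / A0) (β / A1) (β / A2) (β / r ^ 2) (β / q ^ 2)
        (β ^ 3 / (A0 * A1 * A2) * (s * t) / (r ^ 3 * q ^ 3)) *
      ((A0 * A1 * A2) * (r ^ 2 - q ^ 2) ^ 2) =
    β * (β / r ^ 2 - β / q ^ 2) ^ 2 *
      NV (A0 + A1 + A2) (A0 * A1 + A0 * A2 + A1 * A2) (A0 * A1 * A2) r s q t := by
  unfold numr NV
  field_simp
  ring

end alg

variable {K : Type} [Field K] [NumberField K]

lemma mono_height (e1 e2 e3 : K) : ∃ C : ℝ, ∀ r s : K,
    s ^ 2 = r ^ 6 + e1 * r ^ 4 + e2 * r ^ 2 + e3 →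
    logHeight (mono r s) ≤ C + 3 * logHeight₁ (r ^ 2) := by
  let p : Fin 7 ⊕ Fin 4 → MvPolynomial (Fin 2) K := Sum.elim
    (fun i => X 0 ^ (i : ℕ) * X 1 ^ (6 - (i : ℕ)))
    (fun j => X 0 ^ (j : ℕ) * X 1 ^ (3 - (j : ℕ)) *
      (X 0 ^ 3 + C e1 * (X 0 ^ 2 * X 1) + C e2 * (X 0 * X 1 ^ 2) + C e3 * X 1 ^ 3))
  have hp : ∀ i, (p i).IsHomogeneous 6 := by
    rintro (i | j)
    · have h := (isHomogeneous_X_pow (R := K) (0 : Fin 2) (i : ℕ)).mul
        (isHomogeneous_X_pow (R := K) (1 : Fin 2) (6 - (i : ℕ)))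
      have h2 : (i : ℕ) + (6 - (i : ℕ)) = 6 := by omega
      rw [h2] at h
      exact h
    · have h := (isHomogeneous_X_pow (R := K) (0 : Fin 2) (j : ℕ)).mul
        (isHomogeneous_X_pow (R := K) (1 : Fin 2) (3 - (j : ℕ)))
      have h2 : (j : ℕ) + (3 - (j : ℕ)) = 3 := by omega
      rw [h2] at h
      have k1 : (X 0 ^ 3 : MvPolynomial (Fin 2) K).IsHomogeneous 3 := isHomogeneous_X_pow _ _
      have k2 : (X 0 ^ 2 * X 1 : MvPolynomial (Fin 2) K).IsHomogeneous 3 :=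
        (isHomogeneous_X_pow (R := K) (0 : Fin 2) 2).mul (isHomogeneous_X K 1)
      have k3 : (X 0 * X 1 ^ 2 : MvPolynomial (Fin 2) K).IsHomogeneous 3 :=
        (isHomogeneous_X K 0).mul (isHomogeneous_X_pow (R := K) (1 : Fin 2) 2)
      have k4 : (X 1 ^ 3 : MvPolynomial (Fin 2) K).IsHomogeneous 3 := isHomogeneous_X_pow _ _
      have h3 := h.mul (((k1.add (k2.C_mul e1)).add (k3.C_mul e2)).add (k4.C_mul e3))
      exact h3
  obtain ⟨C, hC⟩ := logHeight_eval_le' hp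
  refine ⟨C / 2, fun r s hs => ?_⟩
  have h1 := hC ![r ^ 2, 1]
  have h2 : (fun j => (p j).eval ![r ^ 2, 1]) = (mono r s) ^ 2 := by
    funext j
    rcases j with i | j
    · simp [p, mono, ← pow_mul, mul_comm]
    · simp only [p, mono, Sum.elim_inr, Pi.pow_apply, mul_pow, hs]
      simp
      ring
  rw [h2, logHeight_pow, ← logHeight₁_eq_logHeight] at h1
  push_cast at h1
  linarith

/-- the main inequality, in coordinates. -/
lemma prod_height (e1 e2 e3 : K) (he3 : e3 ≠ 0) : ∃ C : ℝ, ∀ r s q t U V : K,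
    s ^ 2 = r ^ 6 + e1 * r ^ 4 + e2 * r ^ 2 + e3 → t ^ 2 = q ^ 6 + e1 * q ^ 4 + e2 * q ^ 2 + e3 →
    r ^ 2 ≠ q ^ 2 → U * (r ^ 2 - q ^ 2) ^ 2 = NU e1 e2 e3 r s q t →
    V * (e3 * (r ^ 2 - q ^ 2) ^ 2) = NV e1 e2 e3 r s q t →
    logHeight₁ U + logHeight₁ V ≤ C + 3 * logHeight₁ (r ^ 2) + 3 * logHeight₁ (q ^ 2) := by
  obtain ⟨C0, hC0⟩ := mono_height e1 e2 e3
  obtain ⟨c0, hc0⟩ := bi_c0 e3
  obtain ⟨c1, hc1⟩ := bi_c1 e1 e2 e3
  obtain ⟨c2, hc2⟩ := bi_c2 e1 e2 e3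
  obtain ⟨c3, hc3⟩ := bi_c3 e1 e2 e3
  let A : (Fin 2 × Fin 2) × ((Fin 7 ⊕ Fin 4) × (Fin 7 ⊕ Fin 4)) → K := fun z =>
    if z.1 = (0, 0) then c3 z.2 else if z.1 = (0, 1) then c1 z.2 else
      if z.1 = (1, 0) then c2 z.2 else c0 z.2
  refine ⟨totalWeight K * Real.log (Nat.card ((Fin 7 ⊕ Fin 4) × (Fin 7 ⊕ Fin 4))) + logHeight A
    + 2 * C0, fun r s q t U V hs ht hrq hU hV => ?_⟩
  have hA := logHeight_linearMap_apply_le A (fun a => mono r s a.1 * mono q t a.2)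
  rw [logHeight_fun_mul_eq (mono_ne_zero r s) (mono_ne_zero q t)] at hA
  have hd : r ^ 2 - q ^ 2 ≠ 0 := sub_ne_zero.mpr hrq
  have hd1 : r - q ≠ 0 := fun h => hd (by linear_combination (r + q) * h)
  have hd2 : r + q ≠ 0 := fun h => hd (by linear_combination (r - q) * h)
  set k : K := e3 * (r ^ 2 + q ^ 2 - 2 * (r * q)) ^ 2 * (r ^ 2 + q ^ 2 + 2 * (r * q)) with hk
  have hk0 : k ≠ 0 := by
    have : k = e3 * ((r - q) ^ 2) ^ 2 * (r + q) ^ 2 := by rw [hk]; ring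
    rw [this]
    exact mul_ne_zero (mul_ne_zero he3 (pow_ne_zero _ (pow_ne_zero _ hd1))) (pow_ne_zero _ hd2)
  have hM := NU_mul_NV hs ht
  have key : (fun j => ∑ i, A (j, i) * (mono r s i.1 * mono q t i.2)) =
      k • (fun a : Fin 2 × Fin 2 => ![U, 1] a.1 * ![V, 1] a.2) := by
    funext ⟨i, j⟩
    have g0 := hc0 r s q t
    have g1 := hc1 r s q t
    have g2 := hc2 r s q t
    have g3 := hc3 r s q t
    beta_reduce at g0 g1 g2 g3
    fin_cases i <;> fin_cases j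
    · simp only [A, Pi.smul_apply, smul_eq_mul]
      simp only [Fin.zero_eta, Fin.isValue, if_true, Matrix.cons_val_zero]
      rw [← g3]
      have h4 : (r + q) ^ 2 * MM e1 e2 e3 r s q t = (r + q) ^ 2 * (k * (U * V)) := by
        rw [← hM, ← hU, ← hV, hk]
        ring
      exact mul_left_cancel₀ (pow_ne_zero 2 hd2) h4
    · simp only [A, Pi.smul_apply, smul_eq_mul]
      simp
      rw [← g1, ← hU, hk]
      ring
    · simp only [A, Pi.smul_apply, smul_eq_mul]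
      simp
      rw [← g2, ← hV, hk]
      ring
    · simp only [A, Pi.smul_apply, smul_eq_mul]
      simp
      rw [← g0, hk]
  rw [key, logHeight_smul_eq_logHeight _ hk0, logHeight_fun_mul_eq, ← logHeight₁_eq_logHeight,
    ← logHeight₁_eq_logHeight] at hA
  · have h1 := hC0 r s hs
    have h2 := hC0 q t ht
    linarith
  · intro h
    have := congrFun h 1
    simp at this
  · intro h
    have := congrFun h 1
    simp at this

section points

variable [DecidableEq K]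

/-- The data of a Möbius map from the branch points of the first curve to those of the second. -/
structure Mob {F : Type} [Field F] (a0 a1 a2 b0 b1 b2 α β γ : F) : Prop where
  hβ : β ≠ 0
  h0 : (a0 + γ) * (b0 + α) = β
  h1 : (a1 + γ) * (b1 + α) = β
  h2 : (a2 + γ) * (b2 + α) = β

lemma logHeight₁_affine (α β : K) : ∃ C : ℝ, ∀ V : K,
    logHeight₁ (β * V + α) ≤ C + logHeight₁ V := by
  refine ⟨totalWeight K * Real.log 2 + logHeight₁ β + logHeight₁ α, fun V => ?_⟩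
  have h1 := logHeight₁_add_le (β * V) α
  have h2 := logHeight₁_mul_le β V
  linarith

/-- the parametrization of the pairs `(P, Q)` over the curve of genus two. -/
lemma param {a0 a1 a2 b0 b1 b2 α β γ δ x y x' y' : K} (hm : Mob a0 a1 a2 b0 b1 b2 α β γ)
    (hδ : δ ^ 2 * ((a0 + γ) * (a1 + γ) * (a2 + γ)) = β ^ 3)
    (h : y ^ 2 = (x + a0) * (x + a1) * (x + a2)) (h' : y' ^ 2 = (x' + b0) * (x' + b1) * (x' + b2))
    (hx : (x - γ) * (x' - α) = β) (hy : y ≠ 0) :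
    ∃ r : K, r ≠ 0 ∧ x = r ^ 2 + γ ∧ x' = β / r ^ 2 + α ∧ y' = δ * y / r ^ 3 := by
  have hβ := hm.hβ
  have hX : x - γ ≠ 0 := fun h0 => hβ (by rw [← hx, h0, zero_mul])
  have hA0 : a0 + γ ≠ 0 := fun h0 => hβ (by rw [← hm.h0, h0, zero_mul])
  have hA1 : a1 + γ ≠ 0 := fun h0 => hβ (by rw [← hm.h1, h0, zero_mul])
  have hA2 : a2 + γ ≠ 0 := fun h0 => hβ (by rw [← hm.h2, h0, zero_mul])
  have hδ0 : δ ≠ 0 := by
    intro h0
    apply pow_ne_zero 3 hβ
    rw [← hδ, h0]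
    ring
  have e0 : x' + b0 = β * (x + a0) / ((x - γ) * (a0 + γ)) := by
    rw [eq_div_iff (mul_ne_zero hX hA0)]
    linear_combination (a0 + γ) * hx + (x - γ) * hm.h0
  have e1 : x' + b1 = β * (x + a1) / ((x - γ) * (a1 + γ)) := by
    rw [eq_div_iff (mul_ne_zero hX hA1)]
    linear_combination (a1 + γ) * hx + (x - γ) * hm.h1
  have e2 : x' + b2 = β * (x + a2) / ((x - γ) * (a2 + γ)) := by
    rw [eq_div_iff (mul_ne_zero hX hA2)]
    linear_combination (a2 + γ) * hx + (x - γ) * hm.h2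
  have hy' : y' ^ 2 * (x - γ) ^ 3 = δ ^ 2 * y ^ 2 := by
    rw [h', e0, e1, e2, h]
    have hAA : (a0 + γ) * (a1 + γ) * (a2 + γ) ≠ 0 := mul_ne_zero (mul_ne_zero hA0 hA1) hA2
    have hδ2 : δ ^ 2 = β ^ 3 / ((a0 + γ) * (a1 + γ) * (a2 + γ)) := by
      rw [eq_div_iff hAA, hδ]
    rw [hδ2]
    field_simp
  have hy'0 : y' ≠ 0 := by
    intro h0
    apply mul_ne_zero (pow_ne_zero 2 hδ0) (pow_ne_zero 2 hy)
    rw [← hy', h0]
    ring
  have hr0 : δ * y / ((x - γ) * y') ≠ 0 :=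
    div_ne_zero (mul_ne_zero hδ0 hy) (mul_ne_zero hX hy'0)
  have hr2 : (δ * y / ((x - γ) * y')) ^ 2 = x - γ := by
    rw [div_pow, div_eq_iff (pow_ne_zero 2 (mul_ne_zero hX hy'0))]
    linear_combination (-1 : K) * hy'
  refine ⟨δ * y / ((x - γ) * y'), hr0, ?_, ?_, ?_⟩
  · rw [hr2]
    ring
  · rw [hr2, div_add' _ _ _ hX, eq_div_iff hX]
    linear_combination hx
  · have h3 : (δ * y / ((x - γ) * y')) ^ 3 = (x - γ) * (δ * y / ((x - γ) * y')) := by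
      rw [pow_succ, hr2]
    rw [h3]
    field_simp

/-- the gap inequality. -/
theorem gap {a0 a1 a2 b0 b1 b2 α β γ δ : K} (hm : Mob a0 a1 a2 b0 b1 b2 α β γ)
    (hδ : δ ^ 2 * ((a0 + γ) * (a1 + γ) * (a2 + γ)) = β ^ 3) :
    ∃ C : ℝ, ∀ (x y u v x' y' u' v' : K) (h1 : (crv a0 a1 a2).toAffine.Nonsingular x y)
      (h2 : (crv a0 a1 a2).toAffine.Nonsingular u v)
      (h1' : (crv b0 b1 b2).toAffine.Nonsingular x' y')
      (h2' : (crv b0 b1 b2).toAffine.Nonsingular u' v'),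
      (x - γ) * (x' - α) = β → (u - γ) * (u' - α) = β → x ≠ u → y ≠ 0 → v ≠ 0 →
      ht (Affine.Point.some x y h1 + Affine.Point.some u v h2 : Pt a0 a1 a2) +
        ht (Affine.Point.some x' y' h1' + Affine.Point.some u' v' h2' : Pt b0 b1 b2) ≤
        C + 3 * ht (Affine.Point.some x y h1 : Pt a0 a1 a2) +
          3 * ht (Affine.Point.some u v h2 : Pt a0 a1 a2) := by
  have hβ := hm.hβ
  have hA0 : a0 + γ ≠ 0 := fun h0 => hβ (by rw [← hm.h0, h0, zero_mul])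
  have hA1 : a1 + γ ≠ 0 := fun h0 => hβ (by rw [← hm.h1, h0, zero_mul])
  have hA2 : a2 + γ ≠ 0 := fun h0 => hβ (by rw [← hm.h2, h0, zero_mul])
  have hAA : (a0 + γ) * (a1 + γ) * (a2 + γ) ≠ 0 := mul_ne_zero (mul_ne_zero hA0 hA1) hA2
  obtain ⟨C1, hC1⟩ := prod_height ((a0 + γ) + (a1 + γ) + (a2 + γ))
    ((a0 + γ) * (a1 + γ) + (a0 + γ) * (a2 + γ) + (a1 + γ) * (a2 + γ))
    ((a0 + γ) * (a1 + γ) * (a2 + γ)) hAA
  obtain ⟨C2, hC2⟩ := logHeight₁_affine γ (1 : K)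
  obtain ⟨C3, hC3⟩ := logHeight₁_affine α β
  obtain ⟨C4, hC4⟩ := logHeight₁_affine (-γ) (1 : K)
  refine ⟨C1 + C2 + C3 + 6 * C4, ?_⟩
  intro x y u v x' y' u' v' h1 h2 h1' h2' hx hu hxu hy hv
  obtain ⟨r, hr0, rfl, rfl, rfl⟩ := param hm hδ (crv_eqn.mp h1.1) (crv_eqn.mp h1'.1) hx hy
  obtain ⟨q, hq0, rfl, rfl, rfl⟩ := param hm hδ (crv_eqn.mp h2.1) (crv_eqn.mp h2'.1) hu hv
  have hrq : r ^ 2 ≠ q ^ 2 := fun h => hxu (by rw [h])
  have hd : r ^ 2 - q ^ 2 ≠ 0 := sub_ne_zero.mpr hrq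
  have hxu' : β / r ^ 2 + α ≠ β / q ^ 2 + α := by
    intro h
    have h3 : β / r ^ 2 = β / q ^ 2 := add_right_cancel h
    rw [div_eq_div_iff (pow_ne_zero 2 hr0) (pow_ne_zero 2 hq0)] at h3
    exact hrq (mul_left_cancel₀ hβ h3).symm
  have k1 := xRep_add h1 h2 hxu
  have k2 := xRep_add h1' h2' hxu'
  set U : K := numr a0 a1 a2 (r ^ 2 + γ) (q ^ 2 + γ) (y * v) /
    (r ^ 2 + γ - (q ^ 2 + γ)) ^ 2 with hU
  set V : K := numr b0 b1 b2 (β / r ^ 2 + α) (β / q ^ 2 + α)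
    (δ * y / r ^ 3 * (δ * v / q ^ 3)) / (β / r ^ 2 + α - (β / q ^ 2 + α)) ^ 2 with hV
  have hs := crv_eqn.mp h1.1
  have htt := crv_eqn.mp h2.1
  have key := hC1 r y q v (U - γ) ((V - α) / β) (by rw [hs]; ring) (by rw [htt]; ring) hrq
    (by
      have e1 : r ^ 2 + γ - (q ^ 2 + γ) = r ^ 2 - q ^ 2 := by ring
      rw [hU, sub_mul, e1, div_mul_cancel₀ _ (pow_ne_zero 2 hd), ← e1, numr_trans, add_sub_cancel_right,
        add_sub_cancel_right, numr_U])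
    (by
      have hY : β / r ^ 2 - β / q ^ 2 ≠ 0 := by
        intro h
        exact hxu' (by linear_combination h)
      have e1 : β / r ^ 2 + α - (β / q ^ 2 + α) = β / r ^ 2 - β / q ^ 2 := by ring
      have e2 : (V - α) * (β / r ^ 2 - β / q ^ 2) ^ 2 =
          numr (β / (a0 + γ)) (β / (a1 + γ)) (β / (a2 + γ)) (β / r ^ 2) (β / q ^ 2)
            (β ^ 3 / ((a0 + γ) * (a1 + γ) * (a2 + γ)) * (y * v) / (r ^ 3 * q ^ 3)) := by
        rw [hV, sub_mul, e1, div_mul_cancel₀ _ (pow_ne_zero 2 hY), ← e1, numr_trans,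
          add_sub_cancel_right, add_sub_cancel_right]
        have f0 : b0 + α = β / (a0 + γ) := by rw [eq_div_iff hA0, mul_comm, hm.h0]
        have f1 : b1 + α = β / (a1 + γ) := by rw [eq_div_iff hA1, mul_comm, hm.h1]
        have f2 : b2 + α = β / (a2 + γ) := by rw [eq_div_iff hA2, mul_comm, hm.h2]
        have f3 : β ^ 3 / ((a0 + γ) * (a1 + γ) * (a2 + γ)) = δ ^ 2 := by
          rw [div_eq_iff hAA, hδ]
        rw [f0, f1, f2, f3]
        congr 1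
        field_simp
      have e3 := numr_V (s := y) (t := v) hA0 hA1 hA2 hr0 hq0 (β := β)
      rw [← e2] at e3
      have hβY : β * (β / r ^ 2 - β / q ^ 2) ^ 2 ≠ 0 := mul_ne_zero hβ (pow_ne_zero 2 hY)
      apply mul_left_cancel₀ hβY
      rw [← e3]
      field_simp)
  have j1 : ht (Affine.Point.some (r ^ 2 + γ) y h1 + Affine.Point.some (q ^ 2 + γ) v h2 :
      Pt a0 a1 a2) = logHeight₁ U := by
    rw [ht, k1, logHeight₁_eq_logHeight]
  have j2 : ht (Affine.Point.some (β / r ^ 2 + α) (δ * y / r ^ 3) h1' +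
      Affine.Point.some (β / q ^ 2 + α) (δ * v / q ^ 3) h2' : Pt b0 b1 b2) = logHeight₁ V := by
    rw [ht, k2, logHeight₁_eq_logHeight]
  have j3 : ht (Affine.Point.some (r ^ 2 + γ) y h1 : Pt a0 a1 a2) = logHeight₁ (r ^ 2 + γ) := by
    rw [ht, Affine.Point.xRep_some, logHeight₁_eq_logHeight]
  have j4 : ht (Affine.Point.some (q ^ 2 + γ) v h2 : Pt a0 a1 a2) = logHeight₁ (q ^ 2 + γ) := by
    rw [ht, Affine.Point.xRep_some, logHeight₁_eq_logHeight]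
  rw [j1, j2, j3, j4]
  have l1 := hC2 (U - γ)
  have l2 := hC3 ((V - α) / β)
  have l3 := hC4 (r ^ 2 + γ)
  have l4 := hC4 (q ^ 2 + γ)
  rw [one_mul, sub_add_cancel] at l1
  rw [mul_div_cancel₀ _ hβ, sub_add_cancel] at l2
  rw [one_mul, add_neg_cancel_right] at l3 l4
  linarith

end points

end Pool.Agent.T9h40.K3
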