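import Pool.Agent.T9h40.Rank
import Pool.Agent.T9h40.Chain

/-!
The points of a chain generate a group of infinite rank.
-/

set_option autoImplicit false

open WeierstrassCurve Height

namespace Pool.Agent.T9h40.K3

open Pool.Agent.H437R2.Man.MW

variable {F : Type} [Field F] [CharZero F] [IsAlgClosed F] [Algebra.IsAlgebraic ℚ F]

section

variable [DecidableEq F]

/-- A criterion for infinite rank. -/
theorem inf_rank {e1 e2 e3 : F} (h12 : e1 ≠ e2) (h13 : e1 ≠ e3) (h23 : e2 ≠ e3) (X : ℕ → F)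
    (hX : ∀ L : IntermediateField ℚ F, NumberField L → e1 ∈ L → e2 ∈ L → e3 ∈ L →
      ∃ (n : ℕ) (σ : F →+* F), (∀ x ∈ L, σ x = x) ∧ ∃ c d, Pack e1 e2 e3 (X n) (σ (X n)) c d)
    (H : AddSubgroup (Pt e1 e2 e3))
    (hH : ∀ (n : ℕ) (y : F) (h : (crv e1 e2 e3).toAffine.Nonsingular (X n) y),
      (Affine.Point.some (X n) y h : Pt e1 e2 e3) ∈ H) (m : ℕ) :
    ∃ v : Fin m → Pt e1 e2 e3, (∀ i, v i ∈ H) ∧ LinearIndependent ℤ v := by
  classical
  induction m with
  | zero => exact ⟨Fin.elim0, fun i => i.elim0, linearIndependent_empty_type⟩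
  | succ m ih =>
    obtain ⟨v, hvH, hv⟩ := ih
    by_contra hno
    set S : Set F := {e1, e2, e3} ∪ ⋃ i, coords (v i) with hS
    have hSfin : S.Finite := by
      refine Set.Finite.union (by simp) ?_
      exact Set.finite_iUnion fun i => coords_finite (v i)
    have : Finite S := hSfin
    set L : IntermediateField ℚ F := IntermediateField.adjoin ℚ S with hL
    have : FiniteDimensional ℚ L :=
      IntermediateField.finiteDimensional_adjoin fun x _ => (Algebra.IsAlgebraic.isAlgebraic x).isIntegral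
    have : NumberField L := { to_finiteDimensional := this }
    have hSL : S ⊆ L := IntermediateField.subset_adjoin ℚ S
    have he1 : e1 ∈ L := hSL (Or.inl (by simp))
    have he2 : e2 ∈ L := hSL (Or.inl (by simp))
    have he3 : e3 ∈ L := hSL (Or.inl (by simp))
    obtain ⟨n, σ, hσ, c, d, hp⟩ := hX L this he1 he2 he3
    set s : Pt e1 e2 e3 →+ Pt e1 e2 e3 := emb σ (hσ e1 he1) (hσ e2 he2) (hσ e3 he3) with hs
    have hsv : ∀ i, s (v i) = v i := by
      intro i
      have h1 : coords (v i) ⊆ L := fun x hx => hSL (Or.inr (Set.mem_iUnion.mpr ⟨i, hx⟩))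
      generalize v i = P at h1
      match P, h1 with
      | .zero, _ => rfl
      | .some x y h, h1 =>
        have hx : x ∈ L := h1 (Or.inl rfl)
        have hy : y ∈ L := h1 (Or.inr rfl)
        exact pt_some_congr _ _ (hσ x hx) (hσ y hy)
    obtain ⟨y, hy⟩ := IsAlgClosed.exists_pow_nat_eq ((X n + e1) * (X n + e2) * (X n + e3))
      (by norm_num : 0 < 2)
    have hns := crv_nonsing h12 h13 h23 hy
    set P : Pt e1 e2 e3 := .some (X n) y hns with hP
    have h1 : ¬ LinearIndependent ℤ (Fin.cons P v : Fin (m + 1) → Pt e1 e2 e3) := by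
      intro h2
      apply hno
      refine ⟨_, fun i => ?_, h2⟩
      refine Fin.cases ?_ (fun i => ?_) i
      · rw [Fin.cons_zero]
        exact hH n y hns
      · rw [Fin.cons_succ]
        exact hvH i
    obtain ⟨N, g, hN, hNg⟩ := exists_mul_mem_span hv h1
    have h2 : N • s P = N • P := by
      rw [← map_nsmul, hNg, map_sum]
      apply Finset.sum_congr rfl
      intro i _
      rw [map_zsmul, hsv]
    have hsP : (crv e1 e2 e3).toAffine.Nonsingular (σ (X n)) (σ y) :=
      (ns_map σ (hσ e1 he1) (hσ e2 he2) (hσ e3 he3)).mpr hns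
    have hsP' : (crv e1 e2 e3).toAffine.Nonsingular (σ (X n)) (-σ y) := by
      apply crv_nonsing h12 h13 h23
      rw [neg_sq]
      exact crv_eqn.mp hsP.1
    have h3 : s P = .some (σ (X n)) (σ y) hsP := rfl
    have h4 : -(s P) = .some (σ (X n)) (-σ y) hsP' := by rw [h3, neg_mk hsP hsP']
    apply nontors_of_pack hns hsP' hp hN
    rw [← h4, smul_add, smul_neg, h2, ← hP, add_neg_cancel]

end

omit [CharZero F] [IsAlgClosed F] [Algebra.IsAlgebraic ℚ F] in
lemma map_tau (σ : F →+* F) (s x : F) : σ (tau s x) = tau (σ s) (σ x) := by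
  unfold tau
  rw [map_div₀, map_pow, map_add, map_mul, map_pow, map_add, map_one]

omit [CharZero F] [IsAlgClosed F] [Algebra.IsAlgebraic ℚ F] in
lemma map_rho (σ : F →+* F) (s : ℕ → F) (n : ℕ) (hs : ∀ i < n, σ (s i) = s i) (x : F) :
    σ (rho s n x) = rho s n (σ x) := by
  induction n generalizing x with
  | zero => rfl
  | succ n ih =>
    change σ (rho s n (tau (s n) x)) = rho s n (tau (s n) (σ x))
    rw [ih (fun i hi => hs i (Nat.lt_succ_of_lt hi)), map_tau, hs n (Nat.lt_succ_self n)]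

/-- The conjugates of the points of a chain. -/
theorem chain_conj (ι : F →+* ℂ) {v : AbsoluteValue F ℝ} (hv : IsNonarchimedean v)
    (h2 : v 2 = 1 / 2) {lam : F} {s : ℕ → F} (hc : Chain lam s)
    (ha : ∀ n, ‖ι (s n)‖ ≤ 1 ∧ ‖ι (s n)‖ < ‖ι (muS lam s n)‖)
    (hva : ∀ n, 1 / 16 ≤ v (s n ^ 2) ∧ v (s n ^ 2) ≤ 16)
    (L : IntermediateField ℚ F) (hLn : NumberField L) (hl : lam ∈ L) :
    ∃ (n : ℕ) (σ : F →+* F), (∀ x ∈ L, σ x = x) ∧ ∃ c d, Pack 0 (-1) (-lam) (rho s (n + 1) (1 / 512))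
      (σ (rho s (n + 1) (1 / 512))) c d := by
  classical
  have hex : ∃ n, s n ∉ L := by
    obtain ⟨n, hn⟩ := chain_not_mem ι (algebraMap L F) hc ha
    refine ⟨n, fun h => hn ⟨⟨s n, h⟩, rfl⟩⟩
  obtain ⟨n, hnL, hlt⟩ : ∃ n, s n ∉ L ∧ ∀ i < n, s i ∈ L :=
    ⟨Nat.find hex, Nat.find_spec hex, fun i hi => not_not.mp (Nat.find_min hex hi)⟩
  have hμ : muS lam s n ∈ L := by
    cases n with
    | zero => exact hl
    | succ n => exact pow_mem (hlt _ (Nat.lt_succ_self _)) 2
  set u : F := (1 - s n) / (1 + s n) with hu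
  have hs1 := hc.h1 n
  have hs0 := hc.h0 n
  have hu1 : 1 + u ≠ 0 := by
    have : 1 + u = 2 / (1 + s n) := by rw [hu]; field_simp; ring
    rw [this]
    exact div_ne_zero (by norm_num) hs1
  have hsu : s n = (1 - u) / (1 + u) := by
    rw [eq_div_iff hu1, hu]
    field_simp
    ring
  have hu2 : u ^ 2 = 1 - muS lam s n := by
    rw [← hc.hm n, hu]
    unfold muf
    field_simp
    ring
  have huL : u ∉ (algebraMap L F).range := by
    rintro ⟨w, hw⟩
    apply hnL
    rw [hsu, ← hw]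
    exact L.div_mem (L.sub_mem L.one_mem w.2) (L.add_mem L.one_mem w.2)
  have hu2L : u ^ 2 ∈ (algebraMap L F).range := by
    rw [hu2]
    exact ⟨⟨_, L.sub_mem L.one_mem hμ⟩, rfl⟩
  obtain ⟨σ, hσ, hσu⟩ := gal_sq L u hu2L huL
  have hσL : ∀ x ∈ L, σ x = x := fun x hx => hσ ⟨x, hx⟩
  have hσs : σ (s n) = (s n)⁻¹ := by
    rw [hsu, map_div₀, map_sub, map_add, map_one, hσu, inv_div, sub_neg_eq_add, ← sub_eq_add_neg]
  obtain ⟨c, d, hp⟩ := pack_base hv h2 (hc.h2 n) (hva n).1 (hva n).2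
  have hp' := pack_rho hc (n + 1) (x1 := 1 / 512) (x2 := 512) (c := c) (d := d) hp
  have h3 : σ (rho s (n + 1) (1 / 512)) = rho s (n + 1) 512 := by
    change σ (rho s n (tau (s n) (1 / 512))) = rho s n (tau (s n) 512)
    rw [map_rho σ s n (fun i hi => hσL _ (hlt i hi)), map_tau, hσs, map_div₀, map_one, map_ofNat,
      tau_inv hs1 hs0 (by norm_num), one_div_one_div]
  refine ⟨n, σ, hσL, rho s (n + 1) c, rho s (n + 1) d, ?_⟩
  rw [h3]
  exact hp'

end Pool.Agent.T9h40.K3
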