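import Pool.Agent.T9h40.Orb

/-!
The isogeny `E_{s²} → E_μ`, `μ = 4 s / (1 + s)²`, of degree two, on `x`-coordinates.
-/

set_option autoImplicit false

open WeierstrassCurve

namespace Pool.Agent.T9h40.K3

open Pool.Agent.H437R2.Man.MW

variable {F : Type} [Field F]

/-- the isogeny on `x`-coordinates -/
def tau (s x : F) : F := (x + s) ^ 2 / ((1 + s) ^ 2 * x)

/-- the parameter of the target -/
def muf (s : F) : F := 4 * s / (1 + s) ^ 2

lemma tau_one {s : F} (h : 1 + s ≠ 0) : tau s 1 = 1 := by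
  unfold tau
  rw [mul_one, div_self (pow_ne_zero 2 h)]

lemma tau_sub_one {s x : F} (h : 1 + s ≠ 0) (hx : x ≠ 0) :
    tau s x - 1 = (x - 1) * (x - s ^ 2) / ((1 + s) ^ 2 * x) := by
  unfold tau
  field_simp
  ring

lemma tau_sub_mu {s x : F} (h : 1 + s ≠ 0) (hx : x ≠ 0) :
    tau s x - muf s = (x - s) ^ 2 / ((1 + s) ^ 2 * x) := by
  unfold tau muf
  field_simp
  ring

lemma fE_tau {s x : F} (h : 1 + s ≠ 0) (hx : x ≠ 0) :
    fE 0 (-1) (-muf s) (tau s x) =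
      fE 0 (-1) (-s ^ 2) x * ((x ^ 2 - s ^ 2) / ((1 + s) ^ 3 * x ^ 2)) ^ 2 := by
  unfold fE
  have h1 := tau_sub_one h hx
  have h2 := tau_sub_mu h hx
  have h3 : (tau s x + 0) * (tau s x + -1) * (tau s x + -muf s) =
    tau s x * (tau s x - 1) * (tau s x - muf s) := by ring
  rw [h3, h1, h2]
  unfold tau
  field_simp
  ring

lemma dE_leg (μ x : F) : dE 0 (-1) (-μ) x = (x ^ 2 - μ) ^ 2 / (4 * fE 0 (-1) (-μ) x) := by
  unfold dE
  congr 1
  ring

lemma fE_leg (μ x : F) : fE 0 (-1) (-μ) x = x * (x - 1) * (x - μ) := by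
  unfold fE
  ring

lemma dE_tau [CharZero F] {s x : F} (h : 1 + s ≠ 0) (hs : s ≠ 0)
    (hf : fE 0 (-1) (-s ^ 2) x ≠ 0) (hx : x ^ 2 - s ^ 2 ≠ 0) :
    dE 0 (-1) (-muf s) (tau s x) = tau s (dE 0 (-1) (-s ^ 2) x) := by
  have hx0 : x ≠ 0 := by
    rintro rfl
    apply hf
    unfold fE
    ring
  rw [dE_leg, dE_leg, fE_tau h hx0]
  have h4 : (4 : F) ≠ 0 := by norm_num
  rw [fE_leg] at hf ⊢
  have hx1 : x - 1 ≠ 0 := by
    intro h0
    apply hf
    rw [h0]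
    ring
  have hx2 : x - s ^ 2 ≠ 0 := by
    intro h0
    apply hf
    rw [h0]
    ring
  unfold tau muf
  field_simp
  ring

lemma tau_eq_iff {s x y : F} (h : 1 + s ≠ 0) (hx : x ≠ 0) (hy : y ≠ 0) (he : tau s x = tau s y) :
    x = y ∨ x * y = s ^ 2 := by
  unfold tau at he
  rw [div_eq_div_iff (mul_ne_zero (pow_ne_zero 2 h) hx) (mul_ne_zero (pow_ne_zero 2 h) hy)] at he
  have h1 : (1 + s) ^ 2 * ((x - y) * (x * y - s ^ 2)) = 0 := by linear_combination he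
  rcases mul_eq_zero.mp h1 with h2 | h2
  · exact absurd h2 (pow_ne_zero 2 h)
  · rcases mul_eq_zero.mp h2 with h3 | h3
    · exact Or.inl (sub_eq_zero.mp h3)
    · exact Or.inr (sub_eq_zero.mp h3)

lemma leg_ne {μ x : F} (hf : fE 0 (-1) (-μ) x ≠ 0) : x ≠ 0 ∧ x - 1 ≠ 0 ∧ x - μ ≠ 0 := by
  rw [fE_leg] at hf
  refine ⟨?_, ?_, ?_⟩ <;> intro h0 <;> apply hf <;> rw [h0] <;> ring

lemma inf_tau [CharZero F] {s x : F} (h : 1 + s ≠ 0) (hs : s ≠ 0)
    (hi : Inf 0 (-1) (-s ^ 2) x) : Inf 0 (-1) (-muf s) (tau s x) := by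
  have h4 : (4 : F) ≠ 0 := by norm_num
  refine inf_push (tau s) (fun x hx hdx => ?_) (fun x y hx hy hxy => ?_) hi
  · obtain ⟨g0, g1, g2⟩ := leg_ne hx
    have h1 : x ^ 2 - s ^ 2 ≠ 0 := by
      intro h0
      apply hdx
      rw [dE_leg, h0]
      unfold fE
      ring
    refine ⟨?_, dE_tau h hs hx h1⟩
    rw [fE_tau h g0]
    exact mul_ne_zero hx (pow_ne_zero 2 (div_ne_zero h1 (mul_ne_zero (pow_ne_zero 3 h)
      (pow_ne_zero 2 g0))))
  · obtain ⟨g0, g1, g2⟩ := leg_ne hx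
    obtain ⟨k0, k1, k2⟩ := leg_ne hy
    rcases tau_eq_iff h g0 k0 hxy with h1 | h1
    · rw [h1]
    · have h2 : x = s ^ 2 / y := by rw [eq_div_iff k0, h1]
      have h3 : s ^ 2 / y - 1 ≠ 0 := by rw [← h2]; exact g1
      have h3' : s ^ 2 - y ≠ 0 := by
        intro h0
        apply k2
        linear_combination -h0
      have h5' : 1 - y ≠ 0 := by
        intro h0
        apply k1
        linear_combination -h0
      rw [dE_leg, dE_leg, fE_leg, fE_leg, h2]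
      have h6 : s ^ 2 / y - 1 = (s ^ 2 - y) / y := by field_simp
      have h7 : s ^ 2 / y - s ^ 2 = s ^ 2 * (1 - y) / y := by field_simp
      rw [h6, h7]
      rw [div_eq_div_iff]
      · field_simp
        ring
      · refine mul_ne_zero h4 (mul_ne_zero (mul_ne_zero ?_ ?_) ?_)
        · exact div_ne_zero (pow_ne_zero 2 hs) k0
        · exact div_ne_zero h3' k0
        · exact div_ne_zero (mul_ne_zero (pow_ne_zero 2 hs) h5') k0
      · exact mul_ne_zero h4 (mul_ne_zero (mul_ne_zero k0 k1) k2)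

lemma pack_tau [CharZero F] {s x1 x2 c d : F} (h : 1 + s ≠ 0) (hs : s ≠ 0)
    (hp : Pack 0 (-1) (-s ^ 2) x1 x2 c d) :
    Pack 0 (-1) (-muf s) (tau s x1) (tau s x2) (tau s c) (tau s d) := by
  have g1 := (leg_ne (hp.h1.1 0)).1
  have g2 := (leg_ne (hp.h2.1 0)).1
  have g3 := (leg_ne (hp.hc.1 0)).1
  have g4 := (leg_ne (hp.hd.1 0)).1
  simp only [orb] at g1 g2 g3 g4
  have hx : x1 - x2 ≠ 0 := sub_ne_zero.mpr hp.hx
  obtain ⟨a1, a2⟩ := hp.has
  have a1' : (c + d) * (x1 - x2) ^ 2 =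
    2 * (x1 * x2 * (x1 + x2) - 2 * (1 + s ^ 2) * (x1 * x2) + s ^ 2 * (x1 + x2)) := by
    rw [a1]
    unfold numr
    ring
  have a2' : c * d * (x1 - x2) ^ 2 = (x1 * x2 - s ^ 2) ^ 2 := by
    rw [a2]
    ring
  have hxx : x1 * x2 - s ^ 2 ≠ 0 := by
    intro h0
    rw [h0] at a2'
    have : c * d * (x1 - x2) ^ 2 ≠ 0 := mul_ne_zero (mul_ne_zero g3 g4) (pow_ne_zero 2 hx)
    exact this (by rw [a2']; ring)
  refine ⟨?_, inf_tau h hs hp.h1, inf_tau h hs hp.h2, inf_tau h hs hp.hc, inf_tau h hs hp.hd, ?_, ?_⟩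
  · intro he
    rcases tau_eq_iff h g1 g2 he with h1 | h1
    · exact hp.hx h1
    · exact hxx (by rw [h1, sub_self])
  · have b1 : c + d = 2 * (x1 * x2 * (x1 + x2) - 2 * (1 + s ^ 2) * (x1 * x2) + s ^ 2 * (x1 + x2)) /
        (x1 - x2) ^ 2 := by rw [eq_div_iff (pow_ne_zero 2 hx), a1']
    have b2 : c * d = (x1 * x2 - s ^ 2) ^ 2 / (x1 - x2) ^ 2 := by
      rw [eq_div_iff (pow_ne_zero 2 hx), a2']
    have e1 : tau s c + tau s d = ((c * d + s ^ 2) * (c + d) + 4 * s * (c * d)) /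
        ((1 + s) ^ 2 * (c * d)) := by
      unfold tau
      field_simp
      ring
    have e2 : tau s x1 - tau s x2 = (x1 - x2) * (x1 * x2 - s ^ 2) / ((1 + s) ^ 2 * (x1 * x2)) := by
      unfold tau
      field_simp
      ring
    rw [e1, e2, b1, b2]
    unfold numr tau muf
    field_simp
    ring
  · have b1 : c + d = 2 * (x1 * x2 * (x1 + x2) - 2 * (1 + s ^ 2) * (x1 * x2) + s ^ 2 * (x1 + x2)) /
        (x1 - x2) ^ 2 := by rw [eq_div_iff (pow_ne_zero 2 hx), a1']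
    have b2 : c * d = (x1 * x2 - s ^ 2) ^ 2 / (x1 - x2) ^ 2 := by
      rw [eq_div_iff (pow_ne_zero 2 hx), a2']
    have e1 : tau s c * tau s d = (c * d + s * (c + d) + s ^ 2) ^ 2 /
        ((1 + s) ^ 4 * (c * d)) := by
      unfold tau
      field_simp
      ring
    have e2 : tau s x1 - tau s x2 = (x1 - x2) * (x1 * x2 - s ^ 2) / ((1 + s) ^ 2 * (x1 * x2)) := by
      unfold tau
      field_simp
      ring
    have e3 : (tau s x1 * tau s x2) ^ 2 - 2 * (0 * -1 + 0 * -muf s + -1 * -muf s) *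
        (tau s x1 * tau s x2) - 4 * (0 * -1 * -muf s) * (tau s x1 + tau s x2) -
        (4 * (0 + -1 + -muf s) * (0 * -1 * -muf s) - (0 * -1 + 0 * -muf s + -1 * -muf s) ^ 2) =
        (tau s x1 * tau s x2 - muf s) ^ 2 := by ring
    rw [e3, e1, e2, b1, b2]
    unfold tau muf
    field_simp
    ring

end Pool.Agent.T9h40.K3
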