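import Pool.Agent.T9h40.Emb

/-!
Points of infinite order on `y² = (x + e₁)(x + e₂)(x + e₃)` and the `x`-coordinates of `2 P`, `P ± Q`.
-/

set_option autoImplicit false

open WeierstrassCurve

namespace Pool.Agent.T9h40.K3

open Pool.Agent.H437R2.Man.MW

variable {F : Type} [Field F]

/-- the cubic -/
def fE (e1 e2 e3 x : F) : F := (x + e1) * (x + e2) * (x + e3)

/-- `x(2 P)` -/
def dE (e1 e2 e3 x : F) : F :=
  (x ^ 4 - 2 * (e1 * e2 + e1 * e3 + e2 * e3) * x ^ 2 - 8 * (e1 * e2 * e3) * x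
    - (4 * (e1 + e2 + e3) * (e1 * e2 * e3) - (e1 * e2 + e1 * e3 + e2 * e3) ^ 2)) /
    (4 * fE e1 e2 e3 x)

/-- `x(2ᵏ P)` -/
def orb (e1 e2 e3 : F) : ℕ → F → F
  | 0, x => x
  | k + 1, x => dE e1 e2 e3 (orb e1 e2 e3 k x)

/-- the multiples `2ᵏ P` are different. -/
def Inf (e1 e2 e3 x : F) : Prop :=
  (∀ k, fE e1 e2 e3 (orb e1 e2 e3 k x) ≠ 0) ∧ Function.Injective fun k => orb e1 e2 e3 k x

/-- pushing forward along a map. -/
lemma inf_push {e1 e2 e3 c1 c2 c3 : F} (θ : F → F)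
    (hD : ∀ x, fE e1 e2 e3 x ≠ 0 → fE e1 e2 e3 (dE e1 e2 e3 x) ≠ 0 →
      fE c1 c2 c3 (θ x) ≠ 0 ∧ dE c1 c2 c3 (θ x) = θ (dE e1 e2 e3 x))
    (hI : ∀ x y, fE e1 e2 e3 x ≠ 0 → fE e1 e2 e3 y ≠ 0 → θ x = θ y →
      dE e1 e2 e3 x = dE e1 e2 e3 y) {x : F} (h : Inf e1 e2 e3 x) : Inf c1 c2 c3 (θ x) := by
  have h1 : ∀ k, orb c1 c2 c3 k (θ x) = θ (orb e1 e2 e3 k x) := by
    intro k
    induction k with
    | zero => rfl
    | succ k ih =>
      change dE c1 c2 c3 (orb c1 c2 c3 k (θ x)) = θ (dE e1 e2 e3 (orb e1 e2 e3 k x))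
      rw [ih]
      exact (hD _ (h.1 k) (h.1 (k + 1))).2
  refine ⟨fun k => ?_, fun k l hkl => ?_⟩
  · rw [h1]
    exact (hD _ (h.1 k) (h.1 (k + 1))).1
  · simp only [h1] at hkl
    have h2 := hI _ _ (h.1 k) (h.1 l) hkl
    have h3 : k + 1 = l + 1 := h.2 (show orb e1 e2 e3 (k + 1) x = orb e1 e2 e3 (l + 1) x from h2)
    omega

/-- `c, d` are the `x`-coordinates of `P ± Q`. -/
def AS (e1 e2 e3 x1 x2 c d : F) : Prop :=
  (c + d) * (x1 - x2) ^ 2 = 2 * numr e1 e2 e3 x1 x2 0 ∧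
  c * d * (x1 - x2) ^ 2 = (x1 * x2) ^ 2 - 2 * (e1 * e2 + e1 * e3 + e2 * e3) * (x1 * x2)
    - 4 * (e1 * e2 * e3) * (x1 + x2) - (4 * (e1 + e2 + e3) * (e1 * e2 * e3) -
      (e1 * e2 + e1 * e3 + e2 * e3) ^ 2)

/-- the whole package. -/
structure Pack (e1 e2 e3 x1 x2 c d : F) : Prop where
  hx : x1 ≠ x2
  h1 : Inf e1 e2 e3 x1
  h2 : Inf e1 e2 e3 x2
  hc : Inf e1 e2 e3 c
  hd : Inf e1 e2 e3 d
  has : AS e1 e2 e3 x1 x2 c d

section affine

lemma fE_affine {e1 e2 e3 c1 c2 c3 u r x : F} (h1 : c1 = u * e1 - r) (h2 : c2 = u * e2 - r)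
    (h3 : c3 = u * e3 - r) : fE c1 c2 c3 (r + u * x) = u ^ 3 * fE e1 e2 e3 x := by
  subst h1 h2 h3
  unfold fE
  ring

lemma dE_affine [CharZero F] {e1 e2 e3 c1 c2 c3 u r x : F} (hu : u ≠ 0) (h1 : c1 = u * e1 - r)
    (h2 : c2 = u * e2 - r) (h3 : c3 = u * e3 - r) (hx : fE e1 e2 e3 x ≠ 0) :
    dE c1 c2 c3 (r + u * x) = r + u * dE e1 e2 e3 x := by
  unfold dE
  rw [fE_affine h1 h2 h3]
  subst h1 h2 h3
  have h4 : (4 : F) ≠ 0 := by norm_num
  field_simp
  unfold fE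
  ring

lemma inf_affine [CharZero F] {e1 e2 e3 c1 c2 c3 u r x : F} (hu : u ≠ 0) (h1 : c1 = u * e1 - r)
    (h2 : c2 = u * e2 - r) (h3 : c3 = u * e3 - r) (h : Inf e1 e2 e3 x) :
    Inf c1 c2 c3 (r + u * x) := by
  refine inf_push (fun x => r + u * x) (fun x hx _ => ⟨?_, dE_affine hu h1 h2 h3 hx⟩)
    (fun x y _ _ hxy => ?_) h
  · rw [fE_affine h1 h2 h3]
    exact mul_ne_zero (pow_ne_zero _ hu) hx
  · have : x = y := mul_left_cancel₀ hu (add_left_cancel hxy)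
    rw [this]

lemma pack_affine [CharZero F] {e1 e2 e3 c1 c2 c3 u r x1 x2 c d : F} (hu : u ≠ 0)
    (h1 : c1 = u * e1 - r) (h2 : c2 = u * e2 - r) (h3 : c3 = u * e3 - r)
    (h : Pack e1 e2 e3 x1 x2 c d) :
    Pack c1 c2 c3 (r + u * x1) (r + u * x2) (r + u * c) (r + u * d) := by
  refine ⟨fun hx => h.hx (mul_left_cancel₀ hu (add_left_cancel hx)), inf_affine hu h1 h2 h3 h.h1,
    inf_affine hu h1 h2 h3 h.h2, inf_affine hu h1 h2 h3 h.hc, inf_affine hu h1 h2 h3 h.hd, ?_, ?_⟩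
  · have g1 := h.has.1
    subst h1 h2 h3
    unfold numr at g1 ⊢
    linear_combination u ^ 3 * g1
  · have g1 := h.has.1
    have g2 := h.has.2
    subst h1 h2 h3
    unfold numr at g1
    linear_combination u ^ 4 * g2 + r * u ^ 3 * g1

end affine

section points

variable [DecidableEq F] [CharZero F]

lemma nontors_of_inf {e1 e2 e3 x y : F} (h : (crv e1 e2 e3).toAffine.Nonsingular x y)
    (hx : Inf e1 e2 e3 x) {N : ℕ} (hN : N ≠ 0) :
    N • (Affine.Point.some x y h : Pt e1 e2 e3) ≠ 0 := by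
  intro h0
  have h1 : ∀ k : ℕ, ∃ (y' : F) (h' : (crv e1 e2 e3).toAffine.Nonsingular (orb e1 e2 e3 k x) y'),
      (2 ^ k) • (Affine.Point.some x y h : Pt e1 e2 e3) = .some _ y' h' := by
    intro k
    induction k with
    | zero => exact ⟨y, h, by rw [pow_zero, one_smul]; rfl⟩
    | succ k ih =>
      obtain ⟨y', h', e⟩ := ih
      have hy : y' ≠ 0 := by
        intro h2
        have h3 := crv_eqn.mp h'.1
        rw [h2] at h3
        apply hx.1 k
        unfold fE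
        rw [← h3]
        ring
      have h2 := xRep_double h' hy
      have h3 : (2 ^ (k + 1)) • (Affine.Point.some x y h : Pt e1 e2 e3) =
          .some _ y' h' + .some _ y' h' := by
        rw [pow_succ, mul_smul, two_smul, smul_add, e]
      rw [h3]
      generalize hR : (.some _ y' h' + .some _ y' h' : Pt e1 e2 e3) = R at h2
      match R, h2 with
      | .zero, h2 =>
        exfalso
        change Affine.Point.xRep (0 : Pt e1 e2 e3) = _ at h2
        rw [Affine.Point.xRep_zero] at h2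
        have := congrFun h2 1
        simp at this
      | .some x2 y2 g2, h2 =>
        rw [Affine.Point.xRep_some] at h2
        have h4 := congrFun h2 0
        simp only [Matrix.cons_val_zero] at h4
        have h5 : x2 = orb e1 e2 e3 (k + 1) x := by
          rw [h4]
          change _ = dE e1 e2 e3 (orb e1 e2 e3 k x)
          unfold dE
          rw [crv_eqn.mp h'.1]
          rfl
        subst h5
        exact ⟨y2, g2, rfl⟩
  set P : Pt e1 e2 e3 := Affine.Point.some x y h with hP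
  have hfin : (Set.range fun k : ℕ => (2 ^ k) • P).Finite := by
    have h3 : IsOfFinAddOrder P := isOfFinAddOrder_iff_nsmul_eq_zero.mpr ⟨N, Nat.pos_of_ne_zero hN, h0⟩
    have h4 := h3.finite_multiples
    refine h4.subset ?_
    rintro _ ⟨k, rfl⟩
    exact ⟨2 ^ k, rfl⟩
  refine Set.infinite_range_of_injective ?_ hfin
  intro k l hkl
  obtain ⟨y1, g1, e1'⟩ := h1 k
  obtain ⟨y2, g2, e2'⟩ := h1 l
  have h5 : (Affine.Point.some _ y1 g1 : Pt e1 e2 e3) = .some _ y2 g2 := by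
    rw [← e1', ← e2']
    exact hkl
  rw [Affine.Point.some.injEq] at h5
  exact hx.2 h5.1

lemma nontors_of_pack {e1 e2 e3 x1 y1 x2 y2 c d : F}
    (h1 : (crv e1 e2 e3).toAffine.Nonsingular x1 y1) (h2 : (crv e1 e2 e3).toAffine.Nonsingular x2 y2)
    (hp : Pack e1 e2 e3 x1 x2 c d) {N : ℕ} (hN : N ≠ 0) :
    N • (Affine.Point.some x1 y1 h1 + Affine.Point.some x2 y2 h2 : Pt e1 e2 e3) ≠ 0 := by
  have h3 := xRep_add h1 h2 hp.hx
  generalize hR : (.some _ y1 h1 + .some _ y2 h2 : Pt e1 e2 e3) = R at h3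
  match R, h3 with
  | .zero, h3 =>
    exfalso
    change Affine.Point.xRep (0 : Pt e1 e2 e3) = _ at h3
    rw [Affine.Point.xRep_zero] at h3
    have := congrFun h3 1
    simp at this
  | .some x3 y3 g3, h3 =>
    rw [Affine.Point.xRep_some] at h3
    have h4 := congrFun h3 0
    simp only [Matrix.cons_val_zero] at h4
    have hx : x1 - x2 ≠ 0 := sub_ne_zero.mpr hp.hx
    rw [eq_div_iff (pow_ne_zero 2 hx)] at h4
    obtain ⟨a1, a2⟩ := hp.has
    have b1 := crv_eqn.mp h1.1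
    have b2 := crv_eqn.mp h2.1
    have h5 : (x3 - c) * (x3 - d) = 0 := by
      have h6 : (x1 - x2) ^ 4 * ((x3 - c) * (x3 - d)) = 0 := by
        have b3 : (y1 * y2) ^ 2 = (x1 + e1) * (x1 + e2) * (x1 + e3) *
          ((x2 + e1) * (x2 + e2) * (x2 + e3)) := by rw [← b1, ← b2]; ring
        have h7 : (x1 - x2) ^ 4 * ((x3 - c) * (x3 - d)) =
          (x3 * (x1 - x2) ^ 2) ^ 2 - ((c + d) * (x1 - x2) ^ 2) * (x3 * (x1 - x2) ^ 2) +
            (c * d * (x1 - x2) ^ 2) * (x1 - x2) ^ 2 := by ring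
        rw [h7, h4, a1, a2]
        unfold numr
        linear_combination 4 * b3
      rcases mul_eq_zero.mp h6 with h7 | h7
      · exact absurd h7 (pow_ne_zero 4 hx)
      · exact h7
    rcases mul_eq_zero.mp h5 with h6 | h6
    · have h7 : x3 = c := sub_eq_zero.mp h6
      subst h7
      exact nontors_of_inf g3 hp.hc hN
    · have h7 : x3 = d := sub_eq_zero.mp h6
      subst h7
      exact nontors_of_inf g3 hp.hd hN

end points

end Pool.Agent.T9h40.K3
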