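import Pool.Agent.T9h40.CoreF

/-!
Infinite rank of the annihilators, over an algebraic closure of `ℚ`.
-/

set_option autoImplicit false

open WeierstrassCurve Height

namespace Pool.Agent.T9h40.K3

open Pool.Agent.H437R2.Man.MW

/-- coordinates of a point -/
def coords {F : Type} [Field F] {c0 c1 c2 : F} : Pt c0 c1 c2 → Set F
  | .zero => ∅
  | .some x y _ => {x, y}

lemma coords_finite {F : Type} [Field F] {c0 c1 c2 : F} (P : Pt c0 c1 c2) : (coords P).Finite := by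
  match P with
  | .zero => exact Set.finite_empty
  | .some x y h =>
    change ({x, y} : Set F).Finite
    simp

lemma lift_pt {K F : Type} [Field K] [Field F] [DecidableEq K] [DecidableEq F] (j : K →+* F)
    {b0 b1 b2 : K} {c0 c1 c2 : F} (h0 : j b0 = c0) (h1 : j b1 = c1) (h2 : j b2 = c2)
    (P : Pt c0 c1 c2) (hP : coords P ⊆ Set.range j) : ∃ P' : Pt b0 b1 b2, emb j h0 h1 h2 P' = P := by
  match P, hP with
  | .zero, _ => exact ⟨0, map_zero _⟩
  | .some x y h, hP =>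
    obtain ⟨x', rfl⟩ : x ∈ Set.range j := hP (Or.inl rfl)
    obtain ⟨y', rfl⟩ : y ∈ Set.range j := hP (Or.inr rfl)
    exact ⟨.some x' y' ((ns_map j h0 h1 h2).mp h), rfl⟩

/-- an element outside the span up to torsion -/
lemma exists_mul_mem_span {G : Type} [AddCommGroup G] {m : ℕ} {v : Fin m → G}
    (hv : LinearIndependent ℤ v) {Q : G} (hQ : ¬ LinearIndependent ℤ (Fin.cons Q v : Fin (m + 1) → G)) :
    ∃ (N : ℕ) (g : Fin m → ℤ), N ≠ 0 ∧ N • Q = ∑ i, g i • v i := by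
  rw [Fintype.not_linearIndependent_iff] at hQ
  obtain ⟨g, hg, i0, hi0⟩ := hQ
  rw [Fin.sum_univ_succ] at hg
  simp only [Fin.cons_zero, Fin.cons_succ] at hg
  have hg0 : g 0 ≠ 0 := by
    intro h0
    rw [h0, zero_smul, zero_add] at hg
    have h1 := Fintype.linearIndependent_iff.mp hv (fun i => g i.succ) hg
    apply hi0
    rcases Fin.eq_zero_or_eq_succ i0 with h2 | ⟨k, h2⟩
    · rw [h2, h0]
    · rw [h2]
      exact h1 k
  have hQ' : g 0 • Q = ∑ i : Fin m, (-g i.succ) • v i := by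
    simp only [neg_smul, Finset.sum_neg_distrib]
    exact eq_neg_of_add_eq_zero_left hg
  rcases le_total 0 (g 0) with h | h
  · refine ⟨(g 0).natAbs, fun i => -g i.succ, Int.natAbs_ne_zero.mpr hg0, ?_⟩
    rw [← hQ', ← natCast_zsmul, Int.natAbs_of_nonneg h]
  · refine ⟨(g 0).natAbs, fun i => g i.succ, Int.natAbs_ne_zero.mpr hg0, ?_⟩
    have h3 : ((g 0).natAbs : ℤ) = -g 0 := by
      rw [Int.ofNat_natAbs_of_nonpos h]
    rw [← natCast_zsmul, h3, neg_smul, hQ']
    simp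

variable {F A : Type} [Field F] [CharZero F] [IsAlgClosed F] [Algebra.IsAlgebraic ℚ F]
  [DecidableEq F] [AddCommGroup A]

lemma gal_sq (L : IntermediateField ℚ F) (y : F) (h : y ^ 2 ∈ (algebraMap L F).range)
    (hy : y ∉ (algebraMap L F).range) :
    ∃ σ : F →+* F, (∀ x : L, σ (algebraMap L F x) = algebraMap L F x) ∧ σ y = -y := by
  have : Algebra.IsAlgebraic L F := Algebra.IsAlgebraic.tower_top (K := ℚ) L
  have : IsAlgClosure L F := ⟨inferInstance, inferInstance⟩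
  have hG : IsGalois L F := inferInstance
  have h1 : ¬ ∀ f : F ≃ₐ[L] F, f y = y := by
    intro h2
    apply hy
    have h3 := (InfiniteGalois.mem_bot_iff_fixed (k := L) (K := F) y).mpr h2
    rw [IntermediateField.mem_bot] at h3
    exact h3
  push Not at h1
  obtain ⟨f, hf⟩ := h1
  refine ⟨f.toRingEquiv.toRingHom, fun x => f.commutes x, ?_⟩
  change f y = -y
  obtain ⟨z, hz⟩ := h
  have h4 : (f y) ^ 2 = y ^ 2 := by
    rw [← map_pow, ← hz]
    exact f.commutes z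
  rcases sq_eq_sq_iff_eq_or_eq_neg.mp h4 with h5 | h5
  · exact absurd h5 hf
  · exact h5

/-- the case of a point of infinite order. -/
theorem rank_nontorsion {c0 c1 c2 d0 d1 d2 α β γ : F} (hm : Mob c0 c1 c2 d0 d1 d2 α β γ)
    (hc01 : c0 ≠ c1) (hc02 : c0 ≠ c2) (hc12 : c1 ≠ c2)
    (hd01 : d0 ≠ d1) (hd02 : d0 ≠ d2) (hd12 : d1 ≠ d2)
    (φ : Pt c0 c1 c2 →+ Pt d0 d1 d2 →+ A)
    (hφ : ∀ (x y x' y' : F) (h : (crv c0 c1 c2).toAffine.Nonsingular x y)
      (h' : (crv d0 d1 d2).toAffine.Nonsingular x' y'), (x - γ) * (x' - α) = β →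
      φ (.some x y h) (.some x' y' h') = 0)
    {P : Pt c0 c1 c2} (hP : ∀ N : ℕ, N ≠ 0 → N • P ≠ 0) (n : ℕ) :
    ∃ v : Fin n → Pt d0 d1 d2, LinearIndependent ℤ v ∧
      ∀ i, ∃ N : ℕ, N ≠ 0 ∧ N • φ P (v i) = 0 := by
  classical
  induction n with
  | zero => exact ⟨Fin.elim0, linearIndependent_empty_type, fun i => i.elim0⟩
  | succ m ih =>
    obtain ⟨v, hv, hvH⟩ := ih
    by_contra hno
    have hβ := hm.hβ
    have hA0 : c0 + γ ≠ 0 := fun h0 => hβ (by rw [← hm.h0, h0, zero_mul])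
    have hA1 : c1 + γ ≠ 0 := fun h0 => hβ (by rw [← hm.h1, h0, zero_mul])
    have hA2 : c2 + γ ≠ 0 := fun h0 => hβ (by rw [← hm.h2, h0, zero_mul])
    have hAA : (c0 + γ) * (c1 + γ) * (c2 + γ) ≠ 0 := mul_ne_zero (mul_ne_zero hA0 hA1) hA2
    obtain ⟨δ, hδ⟩ := IsAlgClosed.exists_pow_nat_eq (β ^ 3 / ((c0 + γ) * (c1 + γ) * (c2 + γ)))
      (by norm_num : 0 < 2)
    rw [eq_div_iff hAA] at hδ
    set S : Set F := {c0, c1, c2, d0, d1, d2, α, β, γ, δ} ∪ coords P ∪ ⋃ i, coords (v i) with hS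
    have hSfin : S.Finite := by
      refine Set.Finite.union (Set.Finite.union (by simp) (coords_finite P)) ?_
      exact Set.finite_iUnion fun i => coords_finite (v i)
    have : Finite S := hSfin
    set L : IntermediateField ℚ F := IntermediateField.adjoin ℚ S with hL
    have : FiniteDimensional ℚ L :=
      IntermediateField.finiteDimensional_adjoin fun x _ => (Algebra.IsAlgebraic.isAlgebraic x).isIntegral
    have : NumberField L := { to_finiteDimensional := this }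
    have hSL : S ⊆ Set.range (algebraMap L F) := by
      intro x hx
      exact ⟨⟨x, IntermediateField.subset_adjoin ℚ S hx⟩, rfl⟩
    have hS0 : ({c0, c1, c2, d0, d1, d2, α, β, γ, δ} : Set F) ⊆ Set.range (algebraMap L F) :=
      fun x hx => hSL (Or.inl (Or.inl hx))
    obtain ⟨a0, ha0⟩ := hS0 (by simp : c0 ∈ _)
    obtain ⟨a1, ha1⟩ := hS0 (by simp : c1 ∈ _)
    obtain ⟨a2, ha2⟩ := hS0 (by simp : c2 ∈ _)
    obtain ⟨b0, hb0⟩ := hS0 (by simp : d0 ∈ _)
    obtain ⟨b1, hb1⟩ := hS0 (by simp : d1 ∈ _)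
    obtain ⟨b2, hb2⟩ := hS0 (by simp : d2 ∈ _)
    obtain ⟨α', hα'⟩ := hS0 (by simp : α ∈ _)
    obtain ⟨β', hβ'⟩ := hS0 (by simp : β ∈ _)
    obtain ⟨γ', hγ'⟩ := hS0 (by simp : γ ∈ _)
    obtain ⟨δ', hδ'⟩ := hS0 (by simp : δ ∈ _)
    set j : L →+* F := algebraMap L F with hj
    have hinj : Function.Injective j := j.injective
    obtain ⟨P', hP'⟩ := lift_pt j ha0 ha1 ha2 P (fun x hx => hSL (Or.inl (Or.inr hx)))
    have hv' : ∀ i, ∃ R : Pt b0 b1 b2, emb j hb0 hb1 hb2 R = v i := fun i =>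
      lift_pt j hb0 hb1 hb2 (v i) (fun x hx => hSL (Or.inr (Set.mem_iUnion.mpr ⟨i, hx⟩)))
    choose w hw using hv'
    have hm' : Mob a0 a1 a2 b0 b1 b2 α' β' γ' := by
      refine ⟨?_, ?_, ?_, ?_⟩
      · intro h0
        apply hβ
        rw [← hβ', h0, map_zero]
      · apply hinj
        rw [map_mul, map_add, map_add, ha0, hb0, hγ', hα', hβ', hm.h0]
      · apply hinj
        rw [map_mul, map_add, map_add, ha1, hb1, hγ', hα', hβ', hm.h1]
      · apply hinj
        rw [map_mul, map_add, map_add, ha2, hb2, hγ', hα', hβ', hm.h2]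
    have hδδ : δ' ^ 2 * ((a0 + γ') * (a1 + γ') * (a2 + γ')) = β' ^ 3 := by
      apply hinj
      simp only [map_mul, map_add, map_pow]
      rw [ha0, ha1, ha2, hγ', hδ', hβ', hδ]
    have hPn : ∀ N : ℕ, N ≠ 0 → N • P' ≠ 0 := by
      intro N hN h0
      apply hP N hN
      rw [← hP', ← map_nsmul, h0, map_zero]
    obtain ⟨u, hu, huH⟩ := core (A := A) j (gal_sq L) hm' hδδ
      (fun h => hc01 (by rw [← ha0, ← ha1, h])) (fun h => hc02 (by rw [← ha0, ← ha2, h]))
      (fun h => hc12 (by rw [← ha1, ← ha2, h])) (fun h => hd01 (by rw [← hb0, ← hb1, h]))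
      (fun h => hd02 (by rw [← hb0, ← hb2, h])) (fun h => hd12 (by rw [← hb1, ← hb2, h]))
      ha0 ha1 ha2 hb0 hb1 hb2 φ (by rw [hγ', hα', hβ']; exact hφ) (P := P') hPn
      (by
        intro Q hQ
        rw [hP'] at hQ
        have h1 : ¬ LinearIndependent ℤ (Fin.cons Q v : Fin (m + 1) → Pt d0 d1 d2) := by
          intro h2
          apply hno
          refine ⟨_, h2, fun i => ?_⟩
          refine Fin.cases ?_ (fun i => ?_) i
          · rw [Fin.cons_zero]
            exact hQ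
          · rw [Fin.cons_succ]
            exact hvH i
        obtain ⟨N, g, hN, hNg⟩ := exists_mul_mem_span hv h1
        refine ⟨N, ∑ i, g i • w i, hN, ?_⟩
        rw [hNg, map_sum]
        apply Finset.sum_congr rfl
        intro i _
        rw [map_zsmul, hw])
      (m + 1)
    apply hno
    refine ⟨fun i => emb j hb0 hb1 hb2 (u i), ?_, fun i => ?_⟩
    · have h1 := hu.map' (emb j hb0 hb1 hb2).toIntLinearMap
        (LinearMap.ker_eq_bot.mpr (emb_injective j hb0 hb1 hb2))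
      exact h1
    · have := huH i
      rw [hP'] at this
      exact this

/-- there are points of infinite order. -/
lemma exists_nontorsion {c0 c1 c2 : F} (hc01 : c0 ≠ c1) (hc02 : c0 ≠ c2) (hc12 : c1 ≠ c2) :
    ∃ P : Pt c0 c1 c2, ∀ N : ℕ, N ≠ 0 → N • P ≠ 0 := by
  classical
  set S : Set F := {c0, c1, c2} with hS
  have hSfin : S.Finite := by rw [hS]; simp
  have : Finite S := hSfin
  set L : IntermediateField ℚ F := IntermediateField.adjoin ℚ S with hL
  have : FiniteDimensional ℚ L :=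
    IntermediateField.finiteDimensional_adjoin fun x _ => (Algebra.IsAlgebraic.isAlgebraic x).isIntegral
  have : NumberField L := { to_finiteDimensional := this }
  have hSL : S ⊆ Set.range (algebraMap L F) := by
    intro x hx
    exact ⟨⟨x, IntermediateField.subset_adjoin ℚ S hx⟩, rfl⟩
  obtain ⟨a0, ha0⟩ := hSL (by simp [hS] : c0 ∈ _)
  obtain ⟨a1, ha1⟩ := hSL (by simp [hS] : c1 ∈ _)
  obtain ⟨a2, ha2⟩ := hSL (by simp [hS] : c2 ∈ _)
  obtain ⟨C, hC⟩ := tors_bound (algebraMap L F) ha0 ha1 ha2 (fun h => hc01 (by rw [← ha0, ← ha1, h]))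
    (fun h => hc02 (by rw [← ha0, ← ha2, h])) (fun h => hc12 (by rw [← ha1, ← ha2, h]))
  obtain ⟨x, hx⟩ : ∃ x : L, C < logHeight₁ x := by
    by_contra h
    push Not at h
    have h1 := NumberField.finite_setOfPred_logHeight₁_le (K := L) C
    have h2 : Infinite L := Infinite.of_injective (fun n : ℕ => (n : L)) Nat.cast_injective
    exact Set.infinite_univ (h1.subset fun x _ => h x)
  obtain ⟨y, hy⟩ := IsAlgClosed.exists_pow_nat_eq
    ((algebraMap L F x + c0) * (algebraMap L F x + c1) * (algebraMap L F x + c2)) (by norm_num : 0 < 2)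
  have hns := crv_nonsing hc01 hc02 hc12 hy
  refine ⟨.some _ y hns, fun N hN h0 => ?_⟩
  have := hC x y hns ⟨N, hN, h0⟩
  linarith

/-- infinite rank, for all points. -/
theorem rank_all {c0 c1 c2 d0 d1 d2 α β γ : F} (hm : Mob c0 c1 c2 d0 d1 d2 α β γ)
    (hc01 : c0 ≠ c1) (hc02 : c0 ≠ c2) (hc12 : c1 ≠ c2)
    (hd01 : d0 ≠ d1) (hd02 : d0 ≠ d2) (hd12 : d1 ≠ d2)
    (φ : Pt c0 c1 c2 →+ Pt d0 d1 d2 →+ A)
    (hφ : ∀ (x y x' y' : F) (h : (crv c0 c1 c2).toAffine.Nonsingular x y)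
      (h' : (crv d0 d1 d2).toAffine.Nonsingular x' y'), (x - γ) * (x' - α) = β →
      φ (.some x y h) (.some x' y' h') = 0)
    (P : Pt c0 c1 c2) (n : ℕ) :
    ∃ v : Fin n → Pt d0 d1 d2, LinearIndependent ℤ v ∧
      ∀ i, ∃ N : ℕ, N ≠ 0 ∧ N • φ P (v i) = 0 := by
  by_cases hP : ∀ N : ℕ, N ≠ 0 → N • P ≠ 0
  · exact rank_nontorsion hm hc01 hc02 hc12 hd01 hd02 hd12 φ hφ hP n
  · push Not at hP
    obtain ⟨N, hN, hNP⟩ := hP
    obtain ⟨P0, hP0⟩ := exists_nontorsion hc01 hc02 hc12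
    obtain ⟨v, hv, -⟩ := rank_nontorsion hm hc01 hc02 hc12 hd01 hd02 hd12 φ hφ hP0 n
    refine ⟨v, hv, fun i => ⟨N, hN, ?_⟩⟩
    rw [← AddMonoidHom.nsmul_apply, ← map_nsmul, hNP, map_zero, AddMonoidHom.zero_apply]

end Pool.Agent.T9h40.K3
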